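import Pool.Agent.helper68.Zp.Generic

/-!
# Bound for the degree in `h` of the coefficients of the determinant
-/

open Polynomial Matrix Module
open scoped WithZero

namespace Pool.Agent.helper68.Zp

open Pool.Agent.helper90.Zp

section Gauss

variable {F Γ : Type*} [Field F] [LinearOrderedCommGroupWithZero Γ]

/-- polynomials whose coefficients grow at most like `γ ^ (k / M)` -/
def gsub (V : Valuation F Γ) (M : ℕ) (hM : 0 < M) (γ : Γ) : Subring F[X] where
  carrier := {P | ∀ k, V (P.coeff k) ^ M ≤ γ ^ k}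
  mul_mem' := by
    intro P Q hP hQ k
    rw [coeff_mul]
    have hadd : ∀ s : Finset (ℕ × ℕ), s ⊆ Finset.HasAntidiagonal.antidiagonal k →
        V (∑ x ∈ s, P.coeff x.1 * Q.coeff x.2) ^ M ≤ γ ^ k := by
      intro s
      classical
      induction s using Finset.induction_on with
      | empty =>
        intro _
        rw [Finset.sum_empty, map_zero, zero_pow hM.ne']
        exact zero_le
      | insert a s ha ih =>
        intro hs
        rw [Finset.sum_insert ha]
        have h1 := ih ((Finset.subset_insert a s).trans hs)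
        have h2 := hs (Finset.mem_insert_self a s)
        rw [Finset.HasAntidiagonal.mem_antidiagonal] at h2
        have h3 : V (P.coeff a.1 * Q.coeff a.2) ^ M ≤ γ ^ k := by
          rw [map_mul, mul_pow, ← h2, pow_add]
          exact mul_le_mul' (hP _) (hQ _)
        rcases le_total (V (P.coeff a.1 * Q.coeff a.2)) (V (∑ x ∈ s, P.coeff x.1 * Q.coeff x.2))
          with h | h
        · refine (pow_le_pow_left' ((V.map_add _ _).trans (max_le h le_rfl)) M).trans h1
        · refine (pow_le_pow_left' ((V.map_add _ _).trans (max_le le_rfl h)) M).trans h3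
    exact hadd _ subset_rfl
  one_mem' := by
    intro k
    rw [coeff_one]
    split_ifs with h
    · subst h; simp
    · rw [map_zero, zero_pow hM.ne']; exact zero_le
  add_mem' := by
    intro P Q hP hQ k
    rw [coeff_add]
    rcases le_total (V (P.coeff k)) (V (Q.coeff k)) with h | h
    · exact (pow_le_pow_left' ((V.map_add _ _).trans (max_le h le_rfl)) M).trans (hQ k)
    · exact (pow_le_pow_left' ((V.map_add _ _).trans (max_le le_rfl h)) M).trans (hP k)
  zero_mem' := by
    intro k
    rw [coeff_zero, map_zero, zero_pow hM.ne']; exact zero_le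
  neg_mem' := by
    intro P hP k
    rw [coeff_neg, Valuation.map_neg]
    exact hP k

theorem mem_gsub (V : Valuation F Γ) (M : ℕ) (hM : 0 < M) (γ : Γ) (P : F[X]) :
    P ∈ gsub V M hM γ ↔ ∀ k, V (P.coeff k) ^ M ≤ γ ^ k := Iff.rfl

theorem det_mem_subring {R : Type*} [CommRing R] (G : Subring R) {n : Type*} [Fintype n]
    [DecidableEq n] (A : Matrix n n R) (hA : ∀ i j, A i j ∈ G) : A.det ∈ G := by
  rw [Matrix.det_apply]
  apply Subring.sum_mem
  intro σ _
  have h1 : ∏ i, A (σ i) i ∈ G := Subring.prod_mem _ fun i _ => hA _ _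
  rcases Int.units_eq_one_or (Equiv.Perm.sign σ) with h | h
  · rw [h, one_smul]; exact h1
  · rw [h, Units.neg_smul, one_smul]; exact G.neg_mem h1

end Gauss

section Degree

set_option linter.unusedSectionVars false

variable {k K : Type*} [Field k] [Field K] [Algebra k K] [IsFunctionField k K]

theorem adjoin_inv_eq (h : K) :
    IntermediateField.adjoin k {h} = IntermediateField.adjoin k {h⁻¹} := by
  apply le_antisymm
  · rw [IntermediateField.adjoin_simple_le_iff]
    have := (IntermediateField.adjoin k {h⁻¹}).inv_mem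
      (IntermediateField.mem_adjoin_simple_self k h⁻¹)
    rwa [inv_inv] at this
  · rw [IntermediateField.adjoin_simple_le_iff]
    exact (IntermediateField.adjoin k {h}).inv_mem (IntermediateField.mem_adjoin_simple_self k h)

theorem degree_bound (p n : ℕ) [Fact p.Prime] [CharP k p] (h : K) (hh : Transcendental k h) {r : ℕ}
    {b : Fin r → regularOutside (poles k h)}
    {φ : regularOutside (poles k h) →+* Matrix (Fin r) (Fin r) k[X]}
    (h1 : ∀ e j, e * b j = ∑ i, aeval (hO k h) (φ e i j) * b i)
    (h2 : ∀ c : Fin r → k[X], ∑ i, aeval (hO k h) (c i) * b i = 0 → ∀ i, c i = 0)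
    (h3 : ∀ x, ∃ c : Fin r → k[X], x = ∑ i, aeval (hO k h) (c i) * b i)
    (E : (regularOutside (poles k h))[X]) (hE0 : E.coeff 0 = 1)
    (hE : ∀ j, 1 ≤ j → (E.coeff j : K) ^ (p ^ n) * h⁻¹ ∈ regularOutside (poles k h⁻¹)) (j : ℕ) :
    p ^ n * ((pdet φ E).coeff j).natDegree ≤ j := by
  set M := p ^ n with hM
  have hMpos : 0 < M := pow_pos (Fact.out : p.Prime).pos n
  have hcharK : CharP K p := charP_of_injective_algebraMap (algebraMap k K).injective p
  have hh' : Transcendental k h⁻¹ := by
    rw [Transcendental, IsAlgebraic.inv_iff]; exact hh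
  have hh0 : h ≠ 0 := by
    rintro rfl
    exact hh isAlgebraic_zero
  -- a pole of `h`
  obtain ⟨w, hw⟩ := Place.exists_of_transcendental h⁻¹ hh'
  have hw1 : 1 < w.val h := by
    rw [map_inv₀] at hw
    exact (inv_lt_one₀ (zero_lt_iff.mpr ((_root_.map_ne_zero _).mpr hh0))).mp hw
  set F₀ : IntermediateField k K := IntermediateField.adjoin k {h} with hF₀
  have hF' : h ∈ F₀ := IntermediateField.mem_adjoin_simple_self k h
  have hF'' : h⁻¹ ∈ F₀ := F₀.inv_mem hF'
  obtain ⟨B, hB⟩ := exists_generic_basis hh hF₀ hF' h1 h2 h3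
  obtain ⟨r', b', φ', h1', h2', h3'⟩ := exists_model h⁻¹ hh'
  obtain ⟨B', hB'⟩ := exists_generic_basis hh' (hF₀.trans (adjoin_inv_eq h)) hF'' h1' h2' h3'
  have hcharF : CharP F₀ p := charP_of_injective_algebraMap (algebraMap k F₀).injective p
  let V : Valuation F₀ ℤᵐ⁰ := w.val.comap (algebraMap F₀ K)
  have hV : ∀ x : F₀, V x = w.val (x : K) := fun x => rfl
  -- the polynomial over `K`
  let EK : K[X] := E.map (regularOutside (poles k h)).val.toRingHom
  have hEK : ∀ j, EK.coeff j = (E.coeff j : K) := fun j => by rw [coeff_map]; rfl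
  have hN : pdet (actMat B (lmulHom F₀ K)) EK =
      (pdet φ E).map ((aeval (⟨h, hF'⟩ : F₀) : k[X] →ₐ[k] F₀) : k[X] →+* F₀) := by
    rw [← pdet_map, ← pdet_comp]
    congr 2
    ext e : 1
    exact hB e
  have hNN' : pdet (actMat B (lmulHom F₀ K)) (EK ^ M) =
      pdet (actMat B' (lmulHom F₀ K)) (EK ^ M) :=
    pdet_actMat_eq B' B _ _ (LinearEquiv.refl F₀ K) (fun _ _ => rfl) _
  have hG : pdet (actMat B' (lmulHom F₀ K)) (EK ^ M) ∈ gsub V M hMpos (w.val h) := by
    rw [pdet_apply]
    apply det_mem_subring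
    intro i j'
    rw [mem_gsub]
    intro l
    rw [coeff_pmat, ← map_iterateFrobenius_expand, coeff_map, coeff_expand hMpos]
    split_ifs with hdvd
    · obtain ⟨q, rfl⟩ := hdvd
      rw [Nat.mul_div_cancel_left _ hMpos]
      rcases Nat.eq_zero_or_pos q with hq | hq
      · subst hq
        rw [hEK, hE0]
        have : iterateFrobenius K p n (((1 : regularOutside (poles k h)) : K)) = 1 := by
          rw [OneMemClass.coe_one, map_one]
        rw [this, map_one, mul_zero, pow_zero, Matrix.one_apply]
        split_ifs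
        · simp
        · rw [map_zero, zero_pow hMpos.ne']; exact zero_le
      · -- `e_q ^ M = h * u`
        let u : regularOutside (poles k h⁻¹) := ⟨_, hE q hq⟩
        have hu : iterateFrobenius K p n (EK.coeff q) = ((⟨h, hF'⟩ : F₀) : K) * (u : K) := by
          rw [hEK, iterateFrobenius_def]
          change _ = h * ((E.coeff q : K) ^ (p ^ n) * h⁻¹)
          field_simp
        have hentry : actMat B' (lmulHom F₀ K) (iterateFrobenius K p n (EK.coeff q)) i j' =
            (⟨h, hF'⟩ : F₀) * aeval (⟨h⁻¹, hF''⟩ : F₀) (φ' u i j') := by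
          have hb := congrFun (congrFun (hB' u) i) j'
          rw [Matrix.map_apply] at hb
          rw [hu]
          have hb' : aeval (⟨h⁻¹, hF''⟩ : F₀) (φ' u i j') =
            actMat B' (lmulHom F₀ K) (u : K) i j' := hb.symm
          rw [hb', actMat_apply, actMat_apply]
          have h4 : lmulHom F₀ K (((⟨h, hF'⟩ : F₀) : K) * (u : K)) (B' j') =
              (⟨h, hF'⟩ : F₀) • lmulHom F₀ K (u : K) (B' j') := by
            rw [lmulHom_apply, lmulHom_apply, IntermediateField.smul_def, smul_eq_mul, mul_assoc]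
          rw [h4, map_smul]
          rfl
        rw [hentry, map_mul, mul_pow, pow_mul]
        have h5 : V (⟨h, hF'⟩ : F₀) = w.val h := rfl
        have h6 : V (aeval (⟨h⁻¹, hF''⟩ : F₀) (φ' u i j')) ≤ 1 := by
          rw [hV]
          have h7 : ((aeval (⟨h⁻¹, hF''⟩ : F₀) (φ' u i j') : F₀) : K) =
              aeval h⁻¹ (φ' u i j') :=
            (Polynomial.aeval_algHom_apply F₀.val (⟨h⁻¹, hF''⟩ : F₀) _).symm
          rw [h7, Place.val_le_one_iff, ← coe_aeval_hO]
          refine (aeval (hO k h⁻¹) (φ' u i j')).2 w ?_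
          intro hcon
          exact hcon ((w.val_le_one_iff _).mp hw.le)
        rw [h5]
        calc w.val h ^ M * V (aeval (⟨h⁻¹, hF''⟩ : F₀) (φ' u i j')) ^ M
            ≤ w.val h ^ M * 1 ^ M := by gcongr
          _ = (w.val h ^ M) ^ 1 := by rw [one_pow, mul_one, pow_one]
          _ ≤ (w.val h ^ M) ^ q := by
            apply pow_le_pow_right₀ _ hq
            exact one_le_pow₀ hw1.le
    · rw [map_zero, map_zero, Matrix.zero_apply, map_zero, zero_pow hMpos.ne']
      exact zero_le
  rw [← hNN', map_pow, hN, mem_gsub] at hG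
  have hG' := hG (j * M)
  rw [← map_iterateFrobenius_expand, coeff_map, coeff_expand_mul hMpos, coeff_map,
    iterateFrobenius_def, map_pow, hV, pow_mul (w.val h)] at hG'
  have h7 : (((((aeval (⟨h, hF'⟩ : F₀) : k[X] →ₐ[k] F₀) : k[X] →+* F₀) ((pdet φ E).coeff j)) : F₀) :
      K) = aeval h ((pdet φ E).coeff j) :=
    (Polynomial.aeval_algHom_apply F₀.val (⟨h, hF'⟩ : F₀) _).symm
  rw [h7] at hG'
  by_cases hP0 : (pdet φ E).coeff j = 0
  · rw [hP0]; simp
  rw [Polynomial.valuation_aeval_eq_valuation_X_pow_natDegree_of_one_lt_valuation_X h hw1 hP0,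
    ← pow_mul, ← pow_mul, ← pow_mul] at hG'
  have h8 := (pow_le_pow_iff_right₀ hw1).mp hG'
  have h9 : M * ((pdet φ E).coeff j).natDegree * M ≤ j * M := by
    calc M * ((pdet φ E).coeff j).natDegree * M =
        ((pdet φ E).coeff j).natDegree * (p ^ n * M) := by rw [hM]; ring
      _ ≤ j * M := h8
  exact Nat.le_of_mul_le_mul_right h9 hMpos

end Degree

end Pool.Agent.helper68.Zp
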