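import Pool.Agent.helper90.Zp.Defs

/-!
# Degree of the coefficients of a factor
-/

open scoped Polynomial
open Polynomial

namespace Pool.Agent.helper68.Zp

open Pool.Agent.helper90.Zp

theorem coeff_mem_of_roots {k A : Type*} [Field k] [Field A] [IsAlgClosed A] [Algebra k A]
    (E : IntermediateField k A) (Λ : A[X]) (hΛ : Λ.coeff 0 = 1) (hr : ∀ r ∈ Λ.roots, r ∈ E)
    (d : ℕ) : Λ.coeff d ∈ E := by
  have hsplit := IsAlgClosed.splits Λ
  have hprod := hsplit.eq_prod_roots
  set Q : A[X] := (Λ.roots.map fun r => X - C r).prod with hQ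
  have hQmem : Q ∈ Polynomial.lifts (algebraMap E A) := by
    rw [hQ]
    apply Subsemiring.multiset_prod_mem
    intro f hf
    rw [Multiset.mem_map] at hf
    obtain ⟨r, hrr, rfl⟩ := hf
    rw [Polynomial.lifts_iff_coeff_lifts]
    intro n
    refine ⟨⟨(X - C r : A[X]).coeff n, ?_⟩, rfl⟩
    rw [coeff_sub, coeff_X, coeff_C]
    apply E.sub_mem
    · split_ifs
      · exact E.one_mem
      · exact E.zero_mem
    · split_ifs
      · exact hr r hrr
      · exact E.zero_mem
  have hQE : ∀ n, Q.coeff n ∈ E := by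
    intro n
    obtain ⟨x, hx⟩ := (Polynomial.lifts_iff_coeff_lifts Q).mp hQmem n
    rw [← hx]
    exact x.2
  have hlc : Λ.leadingCoeff * Q.coeff 0 = 1 := by
    rw [← hΛ]
    conv_rhs => rw [hprod]
    rw [coeff_C_mul]
  have hQ0 : Q.coeff 0 ≠ 0 := right_ne_zero_of_mul_eq_one hlc
  have hlcE : Λ.leadingCoeff ∈ E := by
    have : Λ.leadingCoeff = (Q.coeff 0)⁻¹ := eq_inv_of_mul_eq_one_left hlc
    rw [this]
    exact E.inv_mem (hQE 0)
  rw [hprod, coeff_C_mul]
  exact E.mul_mem hlcE (hQE d)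

theorem finrank_coeff_le (p : ℕ) [Fact p.Prime] (P : ℤ[X]) (hP : P ≠ 0) (B : ℕ) {ι : Type*}
    (s : Finset ι) (e : ι → ℕ) (he : ∀ i ∈ s, 0 < e i) (heB : ∀ i ∈ s, e i ≤ B)
    (Λ : (AlgebraicClosure ℚ_[p])[X]) (hΛ : Λ.coeff 0 = 1)
    (hdvd : Λ ∣ P.map (Int.castRingHom (AlgebraicClosure ℚ_[p])) *
      ∏ i ∈ s, (1 - Polynomial.X ^ e i)) (d : ℕ) :
    Module.finrank ℚ_[p] (IntermediateField.adjoin ℚ_[p] {Λ.coeff d}) ≤
      B.factorial * Module.finrank ℚ_[p] (padicSplittingField p P) := by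
  classical
  set Ω := AlgebraicClosure ℚ_[p] with hΩ
  have hW : NeZero ((B.factorial : ℕ) : Ω) := ⟨by exact_mod_cast B.factorial_ne_zero⟩
  have hNZ : NeZero B.factorial := ⟨B.factorial_ne_zero⟩
  obtain ⟨ζ, hζ⟩ : ∃ ζ : Ω, IsPrimitiveRoot ζ B.factorial := by
    have hdeg : (cyclotomic B.factorial Ω).degree ≠ 0 :=
      (degree_cyclotomic_pos B.factorial Ω B.factorial_pos).ne'
    obtain ⟨ζ, hζ⟩ := IsAlgClosed.exists_root _ hdeg
    exact ⟨ζ, isRoot_cyclotomic_iff.mp hζ⟩
  have hWpos : 0 < B.factorial := B.factorial_pos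
  set S := padicSplittingField p P with hS
  set Z : IntermediateField ℚ_[p] Ω := IntermediateField.adjoin ℚ_[p] {ζ} with hZ
  have hζint : IsIntegral ℚ_[p] ζ := hζ.isIntegral hWpos |>.tower_top
  have hZdeg : Module.finrank ℚ_[p] Z ≤ B.factorial := by
    rw [hZ, IntermediateField.adjoin.finrank hζint]
    have h1 : (minpoly ℚ_[p] ζ).natDegree ≤ (X ^ B.factorial - 1 : ℚ_[p][X]).natDegree := by
      apply Polynomial.natDegree_le_of_dvd
      · apply minpoly.dvd
        simp [hζ.pow_eq_one]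
      · exact X_pow_sub_C_ne_zero hWpos 1
    refine h1.trans ?_
    have := natDegree_X_pow_sub_C (n := B.factorial) (r := (1 : ℚ_[p]))
    rw [map_one] at this
    rw [this]
  have hPmap : P.map (Int.castRingHom Ω) ≠ 0 := by
    rw [Polynomial.map_ne_zero_iff]
    · exact hP
    · exact Int.cast_injective
  have hfinS : FiniteDimensional ℚ_[p] S := by
    rw [hS, padicSplittingField]
    have hfin : (P.rootSet Ω).Finite := P.rootSet_finite Ω
    have := hfin.to_subtype
    apply IntermediateField.finiteDimensional_adjoin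
    intro x _
    exact Algebra.IsIntegral.isIntegral x
  have hfinZ : FiniteDimensional ℚ_[p] Z := IntermediateField.adjoin.finiteDimensional hζint
  have hmem : Λ.coeff d ∈ S ⊔ Z := by
    apply coeff_mem_of_roots _ _ hΛ
    intro r hr
    have hne : P.map (Int.castRingHom Ω) * ∏ i ∈ s, (1 - Polynomial.X ^ e i) ≠ 0 := by
      apply mul_ne_zero hPmap
      rw [Finset.prod_ne_zero_iff]
      intro i hi h0
      have h1 : (Polynomial.X ^ e i - 1 : Polynomial Ω) = 0 := by
        rw [← neg_eq_zero, neg_sub]; exact h0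
      have h2 := X_pow_sub_C_ne_zero (R := Ω) (he i hi) 1
      rw [map_one] at h2
      exact h2 h1
    have hr' : r ∈ (P.map (Int.castRingHom Ω) * ∏ i ∈ s, (1 - Polynomial.X ^ e i)).roots :=
      Multiset.mem_of_le (Polynomial.roots.le_of_dvd hne hdvd) hr
    rw [mem_roots hne, IsRoot.def, eval_mul, mul_eq_zero, eval_prod, Finset.prod_eq_zero_iff] at hr'
    rcases hr' with h | ⟨i, hi, h⟩
    · apply (le_sup_left : S ≤ S ⊔ Z)
      rw [hS, padicSplittingField]
      apply IntermediateField.subset_adjoin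
      rw [mem_rootSet']
      refine ⟨?_, ?_⟩
      · exact hPmap
      · rw [eval_map] at h
        exact h
    · apply (le_sup_right : Z ≤ S ⊔ Z)
      rw [eval_sub, eval_one, eval_pow, eval_X, sub_eq_zero] at h
      have h1 : r ^ B.factorial = 1 := by
        obtain ⟨c, hc⟩ : e i ∣ B.factorial := Nat.dvd_factorial (he i hi) (heB i hi)
        rw [hc, pow_mul, ← h, one_pow]
      obtain ⟨j, _, hj⟩ := hζ.eq_pow_of_pow_eq_one h1
      rw [← hj]
      exact _root_.pow_mem (IntermediateField.mem_adjoin_simple_self _ _) j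
  have hfinSZ : FiniteDimensional ℚ_[p] (S ⊔ Z : IntermediateField ℚ_[p] Ω) :=
    IntermediateField.finiteDimensional_sup S Z
  calc Module.finrank ℚ_[p] (IntermediateField.adjoin ℚ_[p] {Λ.coeff d})
      ≤ Module.finrank ℚ_[p] (S ⊔ Z : IntermediateField ℚ_[p] Ω) := by
        apply Submodule.finrank_mono (s := (IntermediateField.adjoin ℚ_[p]
          {Λ.coeff d}).toSubalgebra.toSubmodule) (t := (S ⊔ Z).toSubalgebra.toSubmodule)
        intro x hx
        have : IntermediateField.adjoin ℚ_[p] {Λ.coeff d} ≤ S ⊔ Z := by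
          rw [IntermediateField.adjoin_simple_le_iff]; exact hmem
        exact this hx
    _ ≤ Module.finrank ℚ_[p] S * Module.finrank ℚ_[p] Z := IntermediateField.finrank_sup_le S Z
    _ ≤ Module.finrank ℚ_[p] S * B.factorial := Nat.mul_le_mul_left _ hZdeg
    _ = _ := mul_comm _ _

end Pool.Agent.helper68.Zp
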