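import Pool.Agent.helper68.Zp.ModDet

/-!
# Norm of polynomials in an extension of finite fields
-/

open Polynomial Matrix Module

namespace Pool.Agent.helper68.Zp

section FinField

set_option linter.unusedSectionVars false

variable {k κ : Type*} [Field k] [Finite k] [Field κ] [Finite κ] [Algebra k κ]

theorem exists_frob (k κ : Type*) [Field k] [Finite k] [Field κ] [Finite κ] [Algebra k κ] :
    ∃ σ : Fin (finrank k κ) → (κ →ₐ[k] κ), Function.Injective σ ∧
      ∀ i x, σ i x = x ^ (Nat.card k ^ (i : ℕ)) := by
  have := Fintype.ofFinite k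
  refine ⟨fun i => FiniteField.frobeniusAlgHom k κ ^ (i : ℕ),
    (FiniteField.bijective_frobeniusAlgHom_pow k κ).1, fun i x => ?_⟩
  rw [AlgHom.coe_pow, FiniteField.coe_frobeniusAlgHom, pow_iterate, Nat.card_eq_fintype_card]

theorem isUnit_frobMatrix (b : Basis (Fin (finrank k κ)) k κ)
    (σ : Fin (finrank k κ) → (κ →ₐ[k] κ)) (hσ : Function.Injective σ) :
    IsUnit (Matrix.of fun i j => σ i (b j) : Matrix (Fin (finrank k κ)) (Fin (finrank k κ)) κ) := by
  rw [← Matrix.linearIndependent_rows_iff_isUnit]
  have h1 : LinearIndependent κ (fun i => (σ i : κ → κ)) := by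
    have := linearIndependent_monoidHom κ κ
    have h2 := this.comp (fun i : Fin (finrank k κ) => ((σ i : κ →ₐ[k] κ) : κ →* κ)) (by
      intro i j hij
      apply hσ
      ext x
      exact congrArg (fun F : κ →* κ => F x) hij)
    exact h2
  rw [Fintype.linearIndependent_iff] at h1 ⊢
  intro c hc i
  apply h1 c _ i
  funext x
  simp only [Finset.sum_apply, Pi.smul_apply, smul_eq_mul, Pi.zero_apply]
  have hc' : ∀ j, ∑ i, c i * σ i (b j) = 0 := by
    intro j
    have := congrFun hc j
    simpa [Finset.sum_apply, Matrix.row] using this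
  rw [← b.sum_repr x]
  simp only [map_sum, map_smul, Finset.mul_sum]
  rw [Finset.sum_comm]
  apply Finset.sum_eq_zero
  intro j _
  have : ∑ i, c i * (b.repr x j • σ i (b j)) = b.repr x j • ∑ i, c i * σ i (b j) := by
    rw [Finset.smul_sum]
    apply Finset.sum_congr rfl
    intro i _
    rw [mul_smul_comm]
  rw [this, hc' j, smul_zero]

/-- the action of `κ` on itself -/
noncomputable def lmulHom (k κ : Type*) [Field k] [CommRing κ] [Algebra k κ] :
    κ →+* Module.End k κ := (Algebra.lmul k κ).toRingHom

theorem lmulHom_apply (k κ : Type*) [Field k] [CommRing κ] [Algebra k κ] (a x : κ) :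
    lmulHom k κ a x = a * x := rfl

theorem map_pdet_lmul (p s : ℕ) [Fact p.Prime] [CharP κ p] (hs : Nat.card k = p ^ s)
    (b : Basis (Fin (finrank k κ)) k κ) (E : κ[X]) :
    (pdet (actMat b (lmulHom k κ)) E).map (algebraMap k κ) =
      ∏ i ∈ Finset.range (finrank k κ), E.map (iterateFrobenius κ p (s * i)) := by
  obtain ⟨σ, hσ, hσ'⟩ := exists_frob k κ
  set B : Matrix (Fin (finrank k κ)) (Fin (finrank k κ)) κ := Matrix.of fun i j => σ i (b j) with hB
  have hU := isUnit_frobMatrix b σ hσ
  rw [← hB] at hU
  have hdet := (Matrix.isUnit_iff_isUnit_det B).mp hU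
  let φ : κ →+* Matrix (Fin (finrank k κ)) (Fin (finrank k κ)) κ :=
    (Matrix.diagonalRingHom _ _).comp (RingHom.pi fun i => (σ i : κ →+* κ))
  have hφ : ∀ a, φ a = Matrix.diagonal fun i => σ i a := fun a => rfl
  have h1 : pdet ((algebraMap k κ).mapMatrix.comp (actMat b (lmulHom k κ))) E = pdet φ E := by
    apply pdet_conj (A := B⁻¹) (B := B)
    · exact Matrix.nonsing_inv_mul B hdet
    · exact Matrix.mul_nonsing_inv B hdet
    · intro a
      have h2 : φ a * B = B * ((algebraMap k κ).mapMatrix.comp (actMat b (lmulHom k κ))) a := by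
        ext i j
        rw [hφ, Matrix.diagonal_mul, Matrix.mul_apply]
        have h3 : ∀ l, B i l * ((algebraMap k κ).mapMatrix.comp (actMat b (lmulHom k κ))) a l j =
            σ i (b.repr (a * b j) l • b l) := by
          intro l
          have h4 : ((algebraMap k κ).mapMatrix.comp (actMat b (lmulHom k κ))) a l j =
            algebraMap k κ (actMat b (lmulHom k κ) a l j) := rfl
          rw [h4, actMat_apply, lmulHom_apply, map_smul, Algebra.smul_def, mul_comm]
          rfl
        rw [Finset.sum_congr rfl fun l _ => h3 l, ← map_sum, b.sum_repr, map_mul]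
        rfl
      rw [Matrix.mul_assoc, h2, ← Matrix.mul_assoc, Matrix.nonsing_inv_mul B hdet, Matrix.one_mul]
  rw [← pdet_map, h1, pdet_apply]
  have h5 : pmat φ E = Matrix.diagonal fun i => E.map (σ i : κ →+* κ) := by
    ext i j l
    rw [coeff_pmat, hφ]
    by_cases hij : i = j
    · subst hij
      rw [Matrix.diagonal_apply_eq, Matrix.diagonal_apply_eq, coeff_map]
      rfl
    · rw [Matrix.diagonal_apply_ne _ hij, Matrix.diagonal_apply_ne _ hij, coeff_zero]
  rw [h5, Matrix.det_diagonal, Finset.prod_range]
  apply Finset.prod_congr rfl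
  intro i _
  congr 1
  ext x
  rw [iterateFrobenius_def, pow_mul, ← hs]
  exact hσ' i x

theorem prod_range_block {M : Type*} [CommMonoid M] (s d : ℕ) (f : ℕ → M) :
    ∏ i ∈ Finset.range d, ∏ l ∈ Finset.range s, f (s * i + l) =
      ∏ j ∈ Finset.range (s * d), f j := by
  induction d with
  | zero => simp
  | succ d ih =>
    rw [Finset.prod_range_succ, ih, Nat.mul_succ, Finset.prod_range_add]

/-- the norm of a polynomial from `κ` to the prime field, as a polynomial over `k` -/
noncomputable def fieldNorm (p s : ℕ) [Fact p.Prime] [CharP k p]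
    (b : Basis (Fin (finrank k κ)) k κ) (E : κ[X]) : k[X] :=
  ∏ l ∈ Finset.range s, (pdet (actMat b (lmulHom k κ)) E).map (iterateFrobenius k p l)

theorem map_fieldNorm (p s : ℕ) [Fact p.Prime] [CharP k p] [CharP κ p] (hs : Nat.card k = p ^ s)
    (b : Basis (Fin (finrank k κ)) k κ) (E : κ[X]) :
    (fieldNorm p s b E).map (algebraMap k κ) =
      ∏ i ∈ Finset.range (Nat.log p (Nat.card κ)), E.map (iterateFrobenius κ p i) := by
  have hcard : Nat.card κ = p ^ (s * finrank k κ) := by
    rw [pow_mul, ← hs, Module.natCard_eq_pow_finrank (K := k)]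
  rw [hcard, Nat.log_pow (Fact.out : p.Prime).one_lt, fieldNorm, Polynomial.map_prod]
  have h1 : ∀ l, ((pdet (actMat b (lmulHom k κ)) E).map (iterateFrobenius k p l)).map
      (algebraMap k κ) = ∏ i ∈ Finset.range (finrank k κ),
        E.map (iterateFrobenius κ p (s * i + l)) := by
    intro l
    have h2 : ((pdet (actMat b (lmulHom k κ)) E).map (iterateFrobenius k p l)).map
      (algebraMap k κ) = ((pdet (actMat b (lmulHom k κ)) E).map (algebraMap k κ)).map
        (iterateFrobenius κ p l) := by
      rw [Polynomial.map_map, Polynomial.map_map]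
      congr 1
      exact (algebraMap k κ).iterateFrobenius_comm p l
    rw [h2, map_pdet_lmul p s hs, Polynomial.map_prod]
    apply Finset.prod_congr rfl
    intro i _
    rw [Polynomial.map_map]
    congr 1
    ext x
    simp only [RingHom.comp_apply, iterateFrobenius_def]
    rw [← pow_mul, ← pow_add]
  rw [Finset.prod_congr rfl fun l _ => h1 l]
  rw [Finset.prod_comm]
  exact prod_range_block s (finrank k κ) fun j => E.map (iterateFrobenius κ p j)

end FinField

end Pool.Agent.helper68.Zp
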