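import Pool.Agent.helper68.Zp.Model

/-!
# The model over `k[h]` gives a basis of `K` over `k(h)`
-/

open Polynomial Matrix Module
open scoped WithZero

namespace Pool.Agent.helper68.Zp

open Pool.Agent.helper90.Zp

section Generic

set_option linter.unusedSectionVars false

variable {k K : Type*} [Field k] [Field K] [Algebra k K] [IsFunctionField k K]

theorem exists_denominator (h : K) (hh : Transcendental k h) (z : K) :
    ∃ d : k[X], d ≠ 0 ∧ aeval h d * z ∈ regularOutside (poles k h) := by
  have halg := isAlgebraic_adjoin (F := K) hh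
  have h1 : IsAlgebraic (Algebra.adjoin k {h}) z := by
    open scoped IntermediateField.algebraAdjoinAdjoin in
    exact (IsFractionRing.isAlgebraic_iff (Algebra.adjoin k {h})
      (IntermediateField.adjoin k {h}) K).mpr (halg.isAlgebraic z)
  obtain ⟨y, hy0, hy⟩ := h1.exists_integral_multiple
  obtain ⟨P, hP⟩ : ∃ P : k[X], aeval h P = (y : K) := by
    have ha : (y : K) ∈ (aeval h : k[X] →ₐ[k] K).range := by
      rw [← Algebra.adjoin_singleton_eq_range_aeval]; exact y.2
    exact ha
  refine ⟨P, ?_, ?_⟩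
  · rintro rfl
    rw [map_zero] at hP
    exact hy0 (Subtype.ext hP.symm)
  · intro v hv
    have hhv : h ∈ v.ring := by
      by_contra hcon
      exact hv hcon
    have hsub : ∀ a : Algebra.adjoin k {h}, (a : K) ∈ v.ring := by
      intro a
      obtain ⟨Q, hQ⟩ : ∃ Q : k[X], aeval h Q = (a : K) := by
        have ha : (a : K) ∈ (aeval h : k[X] →ₐ[k] K).range := by
          rw [← Algebra.adjoin_singleton_eq_range_aeval]; exact a.2
        exact ha
      rw [← hQ]
      exact (coe_aeval_hO h Q) ▸ (aeval (hO k h) Q).2 v hv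
    rw [Subalgebra.smul_def, smul_eq_mul, ← hP] at hy
    obtain ⟨F, hF, hF0⟩ := hy
    let f : Algebra.adjoin k {h} →+* v.ring :=
      ((Algebra.adjoin k {h}).val.toRingHom).codRestrict v.ring.toSubring hsub
    have hint : IsIntegral v.ring (aeval h P * z) := by
      refine ⟨F.map f, hF.map f, ?_⟩
      rw [Polynomial.eval₂_map]
      exact hF0
    obtain ⟨w, hw⟩ := IsIntegrallyClosed.isIntegral_iff.mp hint
    rw [← hw]
    exact w.2

theorem exists_frac {F₀ : IntermediateField k K} {h : K} (hF : F₀ = IntermediateField.adjoin k {h})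
    (g : F₀) : ∃ r s : k[X], aeval h s ≠ 0 ∧ (g : K) * aeval h s = aeval h r := by
  have hg : (g : K) ∈ IntermediateField.adjoin k {h} := hF ▸ g.2
  rw [IntermediateField.mem_adjoin_simple_iff] at hg
  obtain ⟨r, s, hrs⟩ := hg
  by_cases hs : aeval h s = 0
  · refine ⟨0, 1, by simp, ?_⟩
    rw [hrs, hs]; simp
  · refine ⟨r, s, hs, ?_⟩
    rw [hrs, div_mul_cancel₀ _ hs]

theorem exists_common_frac {F₀ : IntermediateField k K} {h : K}
    (hF : F₀ = IntermediateField.adjoin k {h}) {ι : Type*} (s : Finset ι) (g : ι → F₀) :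
    ∃ (D : k[X]) (c : ι → k[X]), aeval h D ≠ 0 ∧ ∀ i ∈ s, (g i : K) * aeval h D = aeval h (c i) := by
  classical
  induction s using Finset.induction_on with
  | empty => exact ⟨1, fun _ => 0, by simp, by simp⟩
  | insert a s ha ih =>
    obtain ⟨D, c, hD, hc⟩ := ih
    obtain ⟨r, t, ht, hrt⟩ := exists_frac hF (g a)
    refine ⟨D * t, fun i => if i = a then r * D else c i * t, ?_, ?_⟩
    · rw [map_mul]; exact mul_ne_zero hD ht
    · intro i hi
      beta_reduce
      by_cases hia : i = a
      · subst hia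
        rw [if_pos rfl, map_mul, map_mul, ← hrt]; ring
      · rw [if_neg hia, map_mul, map_mul, ← hc i (Finset.mem_of_mem_insert_of_ne hi hia)]; ring

theorem exists_generic_basis {F₀ : IntermediateField k K} {h : K} (hh : Transcendental k h)
    (hF : F₀ = IntermediateField.adjoin k {h}) (hF' : h ∈ F₀) {r : ℕ}
    {b : Fin r → regularOutside (poles k h)}
    {φ : regularOutside (poles k h) →+* Matrix (Fin r) (Fin r) k[X]}
    (h1 : ∀ e j, e * b j = ∑ i, aeval (hO k h) (φ e i j) * b i)
    (h2 : ∀ c : Fin r → k[X], ∑ i, aeval (hO k h) (c i) * b i = 0 → ∀ i, c i = 0)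
    (h3 : ∀ x, ∃ c : Fin r → k[X], x = ∑ i, aeval (hO k h) (c i) * b i) :
    ∃ B : Basis (Fin r) F₀ K,
      ∀ e : regularOutside (poles k h), actMat B (lmulHom F₀ K) (e : K) =
        (φ e).map (aeval (⟨h, hF'⟩ : F₀) : k[X] →ₐ[k] F₀) := by
  have hcoe : ∀ P : k[X], ((aeval (⟨h, hF'⟩ : F₀) P : F₀) : K) = aeval h P := by
    intro P
    exact (Polynomial.aeval_algHom_apply F₀.val (⟨h, hF'⟩ : F₀) P).symm
  have hLI : LinearIndependent F₀ fun i => ((b i : regularOutside (poles k h)) : K) := by
    rw [Fintype.linearIndependent_iff]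
    intro g hg i
    obtain ⟨D, c, hD, hc⟩ := exists_common_frac hF Finset.univ g
    have h4 : ∑ i, aeval (hO k h) (c i) * b i = 0 := by
      apply Subtype.ext
      rw [sum_fin_coe]
      have h5 : ∀ i ∈ Finset.univ, aeval h (c i) * (b i : K) = aeval h D * (g i • (b i : K)) := by
        intro i hi
        rw [← hc i hi, IntermediateField.smul_def, smul_eq_mul]; ring
      rw [Finset.sum_congr rfl h5, ← Finset.mul_sum, hg, mul_zero]
      rfl
    have h5 := h2 c h4 i
    have h6 := hc i (Finset.mem_univ i)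
    rw [h5, map_zero] at h6
    have := (mul_eq_zero.mp h6).resolve_right hD
    exact Subtype.ext this
  have hspan : ⊤ ≤ Submodule.span F₀ (Set.range fun i =>
      ((b i : regularOutside (poles k h)) : K)) := by
    rintro z _
    obtain ⟨d, hd0, hd⟩ := exists_denominator h hh z
    obtain ⟨c, hc⟩ := h3 ⟨_, hd⟩
    have h4 : aeval h d * z = ∑ i, aeval h (c i) * (b i : K) := by
      rw [← sum_fin_coe, ← hc]
    have hd' : aeval h d ≠ 0 := by
      intro h0
      exact hd0 ((transcendental_iff.mp hh) d h0)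
    have h5 : z = ∑ i, (aeval (⟨h, hF'⟩ : F₀) (c i) / aeval (⟨h, hF'⟩ : F₀) d) • (b i : K) := by
      have h6 : ∀ i ∈ Finset.univ, (aeval (⟨h, hF'⟩ : F₀) (c i) / aeval (⟨h, hF'⟩ : F₀) d) •
          (b i : K) = (aeval h d)⁻¹ * (aeval h (c i) * (b i : K)) := by
        intro i _
        rw [IntermediateField.smul_def, smul_eq_mul, IntermediateField.coe_div, hcoe, hcoe]
        field_simp
      rw [Finset.sum_congr rfl h6, ← Finset.mul_sum, ← h4]
      field_simp
    rw [h5]
    apply Submodule.sum_mem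
    intro i _
    exact Submodule.smul_mem _ _ (Submodule.subset_span ⟨i, rfl⟩)
  let B := Basis.mk hLI hspan
  have hB : ∀ i, B i = ((b i : regularOutside (poles k h)) : K) := fun i =>
    Basis.mk_apply hLI hspan i
  refine ⟨B, fun e => ?_⟩
  ext i j
  rw [actMat_apply, Matrix.map_apply]
  have h4 : lmulHom F₀ K (e : K) (B j) = ∑ i, (aeval (⟨h, hF'⟩ : F₀) (φ e i j)) • B i := by
    rw [lmulHom_apply, hB]
    have h5 : (e : K) * (b j : K) = ((e * b j : regularOutside (poles k h)) : K) := rfl
    rw [h5, h1, sum_fin_coe]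
    apply Finset.sum_congr rfl
    intro i _
    rw [IntermediateField.smul_def, smul_eq_mul, hcoe, hB]
  rw [h4, B.repr_sum_self]

end Generic

end Pool.Agent.helper68.Zp
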