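import Pool.Agent.helper90.Zp.Finite
import Pool.Agent.helper68.Zp.FinField

/-!
# The ring of functions regular outside `T` modulo the ideal of a divisor
-/

open Polynomial Matrix Module
open scoped WithZero

namespace Pool.Agent.helper68.Zp

open Pool.Agent.helper90.Zp

section Ideals

set_option linter.unusedSectionVars false

variable {k K : Type*} [Field k] [Field K] [Algebra k K] [IsFunctionField k K]

/-- the ideal of functions regular outside `T` with zeros at `s` -/
def idealOf (T : Set (Place k K)) (s : Multiset (Place k K)) [DecidableEq (Place k K)] :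
    Ideal (regularOutside T) where
  carrier := {f | ∀ v, v ∉ T → v.val (f : K) ≤ WithZero.exp (-(s.count v : ℤ))}
  add_mem' := by
    intro a b ha hb v hv
    exact (v.val.map_add _ _).trans (max_le (ha v hv) (hb v hv))
  zero_mem' := by
    intro v hv
    simp
  smul_mem' := by
    intro c x hx v hv
    have h1 : v.val (c : K) ≤ 1 := (v.val_le_one_iff _).mpr (c.2 v hv)
    have h2 := hx v hv
    change v.val ((c : K) * (x : K)) ≤ _
    rw [map_mul]
    calc v.val (c : K) * v.val (x : K) ≤ 1 * WithZero.exp (-(s.count v : ℤ)) := by gcongr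
      _ = _ := one_mul _

theorem mem_idealOf [DecidableEq (Place k K)] (T : Set (Place k K)) (s : Multiset (Place k K))
    (f : regularOutside T) :
    f ∈ idealOf T s ↔ ∀ v, v ∉ T → v.val (f : K) ≤ WithZero.exp (-(s.count v : ℤ)) := Iff.rfl

theorem evalAt_eq_zero_iff {T : Set (Place k K)} (v : Place k K) (hv : v ∉ T)
    (f : regularOutside T) : evalAt v hv f = 0 ↔ v.val (f : K) < 1 := by
  have h := v.val_lt_one_iff_mem ⟨(f : K), f.2 v hv⟩
  rw [h]
  change IsLocalRing.residue v.ring ⟨(f : K), f.2 v hv⟩ = 0 ↔ _
  rw [IsLocalRing.residue_eq_zero_iff]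

theorem lt_one_iff_le_exp (x : ℤᵐ⁰) : x < 1 ↔ x ≤ WithZero.exp (-1 : ℤ) := by
  rcases eq_or_ne x 0 with h | h
  · rw [h]; simp
  · have hx : x = WithZero.exp (WithZero.log x) := (WithZero.exp_log h).symm
    rw [hx, ← WithZero.exp_zero, WithZero.exp_lt_exp, WithZero.exp_le_exp]
    omega

theorem evalAt_surjective {T : Set (Place k K)} (hT : T.Nonempty) (v : Place k K) (hv : v ∉ T) :
    Function.Surjective (evalAt v hv) := by
  intro y
  obtain ⟨a, rfl⟩ := IsLocalRing.residue_surjective y
  obtain ⟨f, hf1, hf2⟩ := strong_approximation T hT {v} (by simpa using hv) (fun _ => (a : K)) 1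
  have hf1' : v.val (f - (a : K)) < 1 := by
    rw [lt_one_iff_le_exp]
    exact hf1 v (by simp)
  have hmem : ∀ w : Place k K, w ∉ T → f ∈ w.ring := by
    intro w hw
    by_cases hwv : w = v
    · subst hwv
      have h1 : f - (a : K) ∈ w.ring := (w.val_le_one_iff _).mp hf1'.le
      have := w.ring.add_mem _ _ h1 a.2
      simpa using this
    · exact hf2 w hw (by simpa using hwv)
  refine ⟨⟨f, hmem⟩, ?_⟩
  change IsLocalRing.residue v.ring ⟨f, hmem v hv⟩ = IsLocalRing.residue v.ring a
  rw [← sub_eq_zero, ← map_sub, IsLocalRing.residue_eq_zero_iff, ← v.val_lt_one_iff_mem]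
  exact hf1'

theorem exists_mem_idealOf [DecidableEq (Place k K)] {T : Set (Place k K)} (hT : T.Nonempty)
    (s : Multiset (Place k K)) (hs : ∀ v ∈ s, v ∉ T) (v : Place k K) (hv : v ∉ T) :
    ∃ π : regularOutside T, π ∈ idealOf T s ∧
      v.val (π : K) = WithZero.exp (-(s.count v : ℤ)) := by
  obtain ⟨π₀, hπ₀⟩ := v.exists_val_eq_exp (-(s.count v : ℤ))
  obtain ⟨f, hf1, hf2⟩ := strong_approximation T hT (insert v s.toFinset) (by
      intro w hw
      rcases Finset.mem_insert.mp hw with h | h
      · rw [h]; exact hv
      · exact hs w (Multiset.mem_toFinset.mp h))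
    (fun w => if w = v then π₀ else 0) (Multiset.card s + 1)
  have hcount : ∀ w, (s.count w : ℤ) ≤ Multiset.card s := fun w => by
    exact_mod_cast Multiset.count_le_card w s
  have hfv : v.val f = WithZero.exp (-(s.count v : ℤ)) := by
    have h1 := hf1 v (by simp)
    rw [if_pos rfl] at h1
    have h2 : v.val (f - π₀) < v.val π₀ := by
      rw [hπ₀]
      refine h1.trans_lt ?_
      rw [WithZero.exp_lt_exp]
      have := hcount v
      push_cast
      omega
    have h3 : f = (f - π₀) + π₀ := by ring
    rw [h3, Valuation.map_add_eq_of_lt_right v.val h2, hπ₀]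
  have hle : ∀ w, w ∉ T → v.val f ≤ v.val f → w.val f ≤ WithZero.exp (-(s.count w : ℤ)) := by
    intro w hw _
    by_cases hwv : w = v
    · subst hwv; rw [hfv]
    · by_cases hws : w ∈ s
      · have h1 := hf1 w (by simp [hws])
        rw [if_neg hwv, sub_zero] at h1
        refine h1.trans ?_
        rw [WithZero.exp_le_exp]
        have := hcount w
        push_cast
        omega
      · rw [Multiset.count_eq_zero_of_notMem hws]
        have h1 : f ∈ w.ring := hf2 w hw (by simp [hws, hwv])
        simpa using (w.val_le_one_iff _).mpr h1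
  refine ⟨⟨f, fun w hw => ?_⟩, fun w hw => hle w hw le_rfl, hfv⟩
  rw [← w.val_le_one_iff]
  refine (hle w hw le_rfl).trans ?_
  rw [← WithZero.exp_zero, WithZero.exp_le_exp]
  omega

theorem algebraMap_mem_regularOutside (T : Set (Place k K)) (a : k) :
    algebraMap k K a ∈ regularOutside T := (regularOutside T).algebraMap_mem a

theorem evalAt_algebraMap {T : Set (Place k K)} (v : Place k K) (hv : v ∉ T) (a : k) :
    evalAt v hv (algebraMap k (regularOutside T) a) =
      algebraMap k (IsLocalRing.ResidueField v.ring) a := rfl

/-- the action of the functions regular outside `T` on the residue field of `v` -/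
noncomputable def resAct {T : Set (Place k K)} (v : Place k K) (hv : v ∉ T) :
    regularOutside T →+* Module.End k (IsLocalRing.ResidueField v.ring) :=
  (lmulHom k (IsLocalRing.ResidueField v.ring)).comp (evalAt v hv)

/-- the action of the functions regular outside `T` on the quotient by an ideal -/
noncomputable def quotAct {T : Set (Place k K)} (I : Ideal (regularOutside T)) :
    regularOutside T →+* Module.End k (regularOutside T ⧸ I) :=
  (lmulHom k (regularOutside T ⧸ I)).comp (Ideal.Quotient.mk I)

open Classical in
/-- the local determinant -/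
noncomputable def locDet (T : Set (Place k K)) (E : (regularOutside T)[X]) (v : Place k K) : k[X] :=
  if hv : v ∉ T then
    pdet (actMat (Module.finBasis k (IsLocalRing.ResidueField v.ring))
      (lmulHom k (IsLocalRing.ResidueField v.ring))) (E.map (evalAt v hv))
  else 1

theorem idealOf_cons_le [DecidableEq (Place k K)] (T : Set (Place k K)) (s : Multiset (Place k K))
    (v : Place k K) : idealOf T (v ::ₘ s) ≤ idealOf T s := by
  intro f hf w hw
  refine (hf w hw).trans ?_
  rw [WithZero.exp_le_exp]
  have := Multiset.count_le_count_cons w v s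
  omega

theorem pdet_idealOf [DecidableEq (Place k K)] {T : Set (Place k K)} (hT : T.Nonempty)
    (s : Multiset (Place k K)) (hs : ∀ v ∈ s, v ∉ T) :
    Module.Finite k (regularOutside T ⧸ idealOf T s) ∧
      ∀ (n : ℕ) (b : Basis (Fin n) k (regularOutside T ⧸ idealOf T s)) (E : (regularOutside T)[X]),
        pdet (actMat b (quotAct (idealOf T s))) E = (s.map (locDet T E)).prod := by
  induction s using Multiset.induction_on with
  | empty =>
    have htop : idealOf T (0 : Multiset (Place k K)) = ⊤ := by
      rw [eq_top_iff]
      intro f _ w hw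
      simpa using (w.val_le_one_iff _).mpr (f.2 w hw)
    have hsub : Subsingleton (regularOutside T ⧸ idealOf T (0 : Multiset (Place k K))) :=
      Ideal.Quotient.subsingleton_iff.mpr htop
    refine ⟨inferInstance, fun n b E => ?_⟩
    rw [pdet_apply, Multiset.map_zero, Multiset.prod_zero]
    have : IsEmpty (Fin n) := by
      refine ⟨fun i => ?_⟩
      exact b.ne_zero i (Subsingleton.elim _ _)
    exact Matrix.det_isEmpty
  | cons v s ih =>
    have hv : v ∉ T := hs v (Multiset.mem_cons_self v s)
    obtain ⟨hfin, ih⟩ := ih fun w hw => hs w (Multiset.mem_cons_of_mem hw)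
    obtain ⟨π, hπI, hπ⟩ := exists_mem_idealOf hT s (fun w hw => hs w (Multiset.mem_cons_of_mem hw))
      v hv
    have hsurj := evalAt_surjective hT v hv
    have hle := idealOf_cons_le T s v
    -- multiplication by `π`
    have key : ∀ x : regularOutside T, evalAt v hv x = 0 ↔ x * π ∈ idealOf T (v ::ₘ s) := by
      intro x
      rw [evalAt_eq_zero_iff, mem_idealOf]
      constructor
      · intro h w hw
        change w.val ((x : K) * (π : K)) ≤ _
        rw [map_mul]
        by_cases hwv : w = v
        · subst hwv
          rw [hπ, Multiset.count_cons_self]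
          rw [lt_one_iff_le_exp] at h
          calc _ ≤ WithZero.exp (-1 : ℤ) * WithZero.exp (-(s.count w : ℤ)) := by gcongr
            _ = _ := by rw [← WithZero.exp_add]; congr 1; push_cast; ring
        · rw [Multiset.count_cons_of_ne hwv]
          have h1 : w.val (x : K) ≤ 1 := (w.val_le_one_iff _).mpr (x.2 w hw)
          calc _ ≤ 1 * WithZero.exp (-(s.count w : ℤ)) := by
                gcongr
                exact hπI w hw
            _ = _ := one_mul _
      · intro h
        have h1 := h v hv
        rw [Multiset.count_cons_self] at h1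
        have h2 : v.val (x : K) * WithZero.exp (-(s.count v : ℤ)) ≤
            WithZero.exp (-((s.count v + 1 : ℕ) : ℤ)) := by
          rw [← hπ, ← map_mul]; exact h1
        rw [lt_one_iff_le_exp]
        have h3 : WithZero.exp (-((s.count v + 1 : ℕ) : ℤ)) =
            WithZero.exp (-1 : ℤ) * WithZero.exp (-(s.count v : ℤ)) := by
          rw [← WithZero.exp_add]; congr 1; push_cast; ring
        rw [h3] at h2
        exact le_of_mul_le_mul_right h2 (by simp)
    let J := idealOf T (v ::ₘ s)
    let I := idealOf T s
    let σ : IsLocalRing.ResidueField v.ring → regularOutside T := Function.surjInv hsurj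
    have hσ : ∀ a, evalAt v hv (σ a) = a := Function.surjInv_eq hsurj
    have key2 : ∀ x y : regularOutside T, evalAt v hv x = evalAt v hv y →
        Ideal.Quotient.mk J (x * π) = Ideal.Quotient.mk J (y * π) := by
      intro x y hxy
      rw [Ideal.Quotient.mk_eq_mk_iff_sub_mem, ← sub_mul, ← key, map_sub, hxy, sub_self]
    let f : IsLocalRing.ResidueField v.ring →ₗ[k] regularOutside T ⧸ J :=
      { toFun := fun a => Ideal.Quotient.mk J (σ a * π)
        map_add' := by
          intro a b
          rw [← map_add, ← add_mul]
          apply key2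
          rw [map_add, hσ, hσ, hσ]
        map_smul' := by
          intro c a
          have h1 : (RingHom.id k c) • (Ideal.Quotient.mk J (σ a * π)) =
            Ideal.Quotient.mk J ((c • σ a) * π) := by
            rw [smul_mul_assoc]; rfl
          rw [h1]
          apply key2
          rw [hσ, Algebra.smul_def, Algebra.smul_def, map_mul, hσ, evalAt_algebraMap] }
    have hf : ∀ x, f (evalAt v hv x) = Ideal.Quotient.mk J (x * π) := by
      intro x
      apply key2
      rw [hσ]
    let g : regularOutside T ⧸ J →ₗ[k] regularOutside T ⧸ I :=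
      (Ideal.Quotient.factorₐ k hle).toLinearMap
    have hg : ∀ x, g (Ideal.Quotient.mk J x) = Ideal.Quotient.mk I x := fun x => rfl
    have hfinj : Function.Injective f := by
      rw [injective_iff_map_eq_zero]
      intro a ha
      obtain ⟨x, rfl⟩ := hsurj a
      rw [hf, Ideal.Quotient.eq_zero_iff_mem, ← key] at ha
      exact ha
    have hgsurj : Function.Surjective g := by
      intro y
      obtain ⟨x, rfl⟩ := Ideal.Quotient.mk_surjective y
      exact ⟨Ideal.Quotient.mk J x, rfl⟩
    have hfg : ∀ y, g y = 0 → ∃ w, f w = y := by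
      intro y hy
      obtain ⟨x, rfl⟩ := Ideal.Quotient.mk_surjective y
      rw [hg, Ideal.Quotient.eq_zero_iff_mem] at hy
      -- `x / π` is regular at `v`
      have hπ0 : (π : K) ≠ 0 := by
        intro h0
        rw [h0, map_zero] at hπ
        exact WithZero.exp_ne_zero hπ.symm
      have h1 : v.val ((x : K) / π) ≤ 1 := by
        rw [map_div₀, hπ]
        rw [div_le_one₀ (by simp)]
        exact hy v hv
      obtain ⟨z, hz⟩ := hsurj (IsLocalRing.residue v.ring ⟨(x : K) / π, (v.val_le_one_iff _).mp h1⟩)
      refine ⟨evalAt v hv z, ?_⟩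
      rw [hf, Ideal.Quotient.mk_eq_mk_iff_sub_mem, ← neg_mem_iff, neg_sub]
      have h2 : v.val ((x : K) / π - z) < 1 := by
        have h3 : IsLocalRing.residue v.ring ⟨(x : K) / π, (v.val_le_one_iff _).mp h1⟩ -
            IsLocalRing.residue v.ring ⟨(z : K), z.2 v hv⟩ = 0 := by
          rw [sub_eq_zero]; exact hz.symm
        rw [← map_sub, IsLocalRing.residue_eq_zero_iff, ← v.val_lt_one_iff_mem] at h3
        exact h3
      intro w hw
      by_cases hwv : w = v
      · subst hwv
        rw [Multiset.count_cons_self]
        change w.val ((x : K) - z * π) ≤ _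
        have h4 : (x : K) - z * π = ((x : K) / π - z) * π := by
          field_simp
        rw [h4, map_mul, hπ]
        rw [lt_one_iff_le_exp] at h2
        calc _ ≤ WithZero.exp (-1 : ℤ) * WithZero.exp (-(s.count w : ℤ)) := by gcongr
          _ = _ := by rw [← WithZero.exp_add]; congr 1; push_cast; ring
      · rw [Multiset.count_cons_of_ne hwv]
        have h5 : x - z * π ∈ idealOf T s := Ideal.sub_mem _ hy (Ideal.mul_mem_left _ _ hπI)
        exact h5 w hw
    have hgf : ∀ w, g (f w) = 0 := by
      intro a
      obtain ⟨x, rfl⟩ := hsurj a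
      rw [hf, hg, Ideal.Quotient.eq_zero_iff_mem]
      exact Ideal.mul_mem_left _ _ hπI
    have hexact : Function.Exact f g := by
      intro y
      constructor
      · exact hfg y
      · rintro ⟨w, rfl⟩
        exact hgf w
    have hfinJ : Module.Finite k (regularOutside T ⧸ J) := Module.Finite.of_exact hexact hgsurj
    refine ⟨hfinJ, fun n b E => ?_⟩
    have hfree : Module.Free k (regularOutside T ⧸ I) := Module.Free.of_divisionRing k _
    let bI := Module.finBasis k (regularOutside T ⧸ I)
    have h1 := pdet_exact (Module.finBasis k (IsLocalRing.ResidueField v.ring)) b bI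
      (resAct v hv) (quotAct J) (quotAct I) f g hfinj hgsurj hfg hgf
      (by
        intro s' a
        obtain ⟨x, rfl⟩ := hsurj a
        have h2 : resAct v hv s' (evalAt v hv x) = evalAt v hv (s' * x) := by
          rw [map_mul]; rfl
        have h3 : quotAct J s' (f (evalAt v hv x)) = Ideal.Quotient.mk J s' *
          f (evalAt v hv x) := rfl
        rw [h2, h3, hf, hf, ← map_mul, mul_assoc])
      (by
        intro s' y
        obtain ⟨x, rfl⟩ := Ideal.Quotient.mk_surjective y
        rfl) E
    rw [h1, Multiset.map_cons, Multiset.prod_cons, ih _ bI E]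
    congr 1
    rw [locDet, dif_pos hv]
    exact pdet_comp (evalAt v hv) (actMat (Module.finBasis k (IsLocalRing.ResidueField v.ring))
      (lmulHom k (IsLocalRing.ResidueField v.ring))) E

end Ideals

end Pool.Agent.helper68.Zp
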