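import Pool.Agent.helper90.Zp.Defs

/-!
# Invariance of the L-polynomial under isomorphism
-/

open scoped Polynomial

namespace Pool.Agent.helper68.Zp

open Pool.Agent.helper90.Zp

variable {k F F' : Type*} [Field k] [Field F] [Field F'] [Algebra k F] [Algebra k F']

/-- transport of a place along an isomorphism -/
def mapPlace (e : F ≃ₐ[k] F') (v : Place k F) : Place k F' where
  ring := v.ring.comap (e.symm : F' →+* F)
  algebraMap_mem a := by
    rw [ValuationSubring.mem_comap]
    have : (e.symm : F' →+* F) (algebraMap k F' a) = algebraMap k F a := e.symm.commutes a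
    rw [this]
    exact v.algebraMap_mem a
  ne_top := by
    intro h
    apply v.ne_top
    rw [eq_top_iff]
    intro x _
    have h1 : e x ∈ v.ring.comap (e.symm : F' →+* F) := by rw [h]; trivial
    rw [ValuationSubring.mem_comap] at h1
    have h2 : (e.symm : F' →+* F) (e x) = x := e.symm_apply_apply x
    rwa [h2] at h1

theorem mem_mapPlace (e : F ≃ₐ[k] F') (v : Place k F) (x : F') :
    x ∈ (mapPlace e v).ring ↔ e.symm x ∈ v.ring := Iff.rfl

/-- the valuation rings are isomorphic -/
def mapPlaceRing (e : F ≃ₐ[k] F') (v : Place k F) : v.ring ≃+* (mapPlace e v).ring where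
  toFun x := ⟨e x, by rw [mem_mapPlace, e.symm_apply_apply]; exact x.2⟩
  invFun x := ⟨e.symm x, x.2⟩
  left_inv x := Subtype.ext (e.symm_apply_apply _)
  right_inv x := Subtype.ext (e.apply_symm_apply _)
  map_mul' x y := Subtype.ext (map_mul e _ _)
  map_add' x y := Subtype.ext (map_add e _ _)

theorem deg_mapPlace (e : F ≃ₐ[k] F') (v : Place k F) : (mapPlace e v).deg = v.deg := by
  unfold Place.deg
  symm
  apply Algebra.finrank_eq_of_equiv_equiv (RingEquiv.refl k)
    (IsLocalRing.ResidueField.mapEquiv (mapPlaceRing e v))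
  ext a
  have h1 : (mapPlaceRing e v) (algebraMap k v.ring a) = algebraMap k (mapPlace e v).ring a := by
    apply Subtype.ext
    exact e.commutes a
  change algebraMap k (IsLocalRing.ResidueField (mapPlace e v).ring) a =
    IsLocalRing.ResidueField.map _ (IsLocalRing.residue v.ring (algebraMap k v.ring a))
  rw [IsLocalRing.ResidueField.map_residue]
  change IsLocalRing.residue _ (algebraMap k (mapPlace e v).ring a) = _
  rw [← h1]
  rfl

theorem place_ext {v w : Place k F} (h : v.ring = w.ring) : v = w := by
  cases v; cases w; congr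

/-- bijection of the sets of places -/
def mapPlaceEquiv (e : F ≃ₐ[k] F') : Place k F ≃ Place k F' where
  toFun := mapPlace e
  invFun := mapPlace e.symm
  left_inv v := by
    apply place_ext
    ext x
    rw [mem_mapPlace, mem_mapPlace]
    have : e.symm (e.symm.symm x) = x := e.symm_apply_apply x
    rw [this]
  right_inv v := by
    apply place_ext
    ext x
    rw [mem_mapPlace, mem_mapPlace]
    have : e.symm.symm (e.symm x) = x := e.apply_symm_apply x
    rw [this]

theorem zetaSeries_eq (e : F ≃ₐ[k] F') : zetaSeries k F = zetaSeries k F' := by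
  ext d
  rw [zetaSeries, zetaSeries, PowerSeries.coeff_mk, PowerSeries.coeff_mk]
  congr 1
  apply Nat.card_congr
  refine (Equiv.subtypeEquiv (Finsupp.domCongr (mapPlaceEquiv e)).toEquiv ?_)
  intro D
  have h1 : ((Finsupp.domCongr (mapPlaceEquiv e)).toEquiv D) =
      D.equivMapDomain (mapPlaceEquiv e) := rfl
  rw [h1, Finsupp.sum_equivMapDomain]
  have h2 : ∀ v m, m * (mapPlaceEquiv e v).deg = m * v.deg := fun v m => by
    rw [show mapPlaceEquiv e v = mapPlace e v from rfl, deg_mapPlace]
  simp only [h2]

theorem IsLPolynomial.of_algEquiv (e : F ≃ₐ[k] F') {P : ℤ[X]} (h : IsLPolynomial k F P) :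
    IsLPolynomial k F' P := by
  unfold IsLPolynomial at h ⊢
  rw [h, zetaSeries_eq e]

end Pool.Agent.helper68.Zp
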