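import Pool.Agent.helper68.Zp.PDet

/-!
# Determinants of polynomials acting on finite-dimensional modules
-/

open Polynomial Matrix Module

namespace Pool.Agent.helper68.Zp

section ModDet

variable {k S : Type*} [Field k] [CommRing S]

/-- matrices of an action in a basis -/
noncomputable def actMat {V : Type*} [AddCommGroup V] [Module k V] {ι : Type*} [Fintype ι]
    [DecidableEq ι] (b : Basis ι k V) (ρ : S →+* Module.End k V) : S →+* Matrix ι ι k :=
  ((LinearMap.toMatrixAlgEquiv b).toRingEquiv.toRingHom).comp ρ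

theorem actMat_apply {V : Type*} [AddCommGroup V] [Module k V] {ι : Type*} [Fintype ι]
    [DecidableEq ι] (b : Basis ι k V) (ρ : S →+* Module.End k V) (s : S) (i j : ι) :
    actMat b ρ s i j = b.repr (ρ s (b j)) i := by
  have : actMat b ρ s = LinearMap.toMatrixAlgEquiv b (ρ s) := rfl
  rw [this, LinearMap.toMatrixAlgEquiv_apply]

theorem pdet_actMat_eq {V V' : Type*} [AddCommGroup V] [Module k V] [AddCommGroup V'] [Module k V']
    {ι κ : Type*} [Fintype ι] [DecidableEq ι] [Fintype κ] [DecidableEq κ]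
    (b : Basis ι k V) (b' : Basis κ k V') (ρ : S →+* Module.End k V) (ρ' : S →+* Module.End k V')
    (e : V ≃ₗ[k] V') (he : ∀ s x, e (ρ s x) = ρ' s (e x)) (E : S[X]) :
    pdet (actMat b' ρ') E = pdet (actMat b ρ) E := by
  apply pdet_conj (A := LinearMap.toMatrix b b' (e : V →ₗ[k] V'))
    (B := LinearMap.toMatrix b' b (e.symm : V' →ₗ[k] V))
  · rw [← LinearMap.toMatrix_comp]; simp
  · rw [← LinearMap.toMatrix_comp]; simp
  · intro s
    have h1 : actMat b' ρ' s = LinearMap.toMatrix b' b' (ρ' s) := rfl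
    have h2 : actMat b ρ s = LinearMap.toMatrix b b (ρ s) := rfl
    rw [h1, h2, ← LinearMap.toMatrix_comp, ← LinearMap.toMatrix_comp]
    congr 1
    ext x
    simp [he]

theorem pdet_exact {W V U : Type*} [AddCommGroup W] [Module k W] [AddCommGroup V] [Module k V]
    [AddCommGroup U] [Module k U]
    {ι κ μ : Type*} [Fintype ι] [DecidableEq ι] [Fintype κ] [DecidableEq κ] [Fintype μ]
    [DecidableEq μ]
    (bW : Basis ι k W) (bV : Basis κ k V) (bU : Basis μ k U)
    (ρW : S →+* Module.End k W) (ρV : S →+* Module.End k V) (ρU : S →+* Module.End k U)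
    (f : W →ₗ[k] V) (g : V →ₗ[k] U) (hf : Function.Injective f) (hg : Function.Surjective g)
    (hfg : ∀ v, g v = 0 → ∃ w, f w = v) (hgf : ∀ w, g (f w) = 0)
    (hfρ : ∀ s x, f (ρW s x) = ρV s (f x)) (hgρ : ∀ s x, g (ρV s x) = ρU s (g x)) (E : S[X]) :
    pdet (actMat bV ρV) E = pdet (actMat bW ρW) E * pdet (actMat bU ρU) E := by
  obtain ⟨σ, hσ⟩ := g.exists_rightInverse_of_surjective (LinearMap.range_eq_top.mpr hg)
  have hσ' : ∀ u, g (σ u) = u := fun u => by
    have := congrArg (fun F => F u) hσ
    simpa using this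
  have hbij : Function.Bijective (f.coprod σ) := by
    constructor
    · rw [injective_iff_map_eq_zero]
      rintro ⟨w, u⟩ h
      rw [LinearMap.coprod_apply] at h
      have h1 := congrArg g h
      rw [map_add, hgf, hσ', zero_add, map_zero] at h1
      have h1' : u = 0 := h1
      subst h1'
      have h' : f w + σ 0 = 0 := h
      rw [map_zero, add_zero] at h'
      have := hf (h'.trans (map_zero f).symm)
      rw [this]
      rfl
    · intro v
      obtain ⟨w, hw⟩ := hfg (v - σ (g v)) (by rw [map_sub, hσ', sub_self])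
      exact ⟨(w, g v), by rw [LinearMap.coprod_apply, hw]; simp⟩
  let e : (W × U) ≃ₗ[k] V := LinearEquiv.ofBijective _ hbij
  have he : ∀ w u, e (w, u) = f w + σ u := fun w u => by
    simp [e, LinearMap.coprod_apply]
  have hes : ∀ v, (e.symm v).2 = g v := by
    intro v
    obtain ⟨⟨w, u⟩, rfl⟩ := e.surjective v
    rw [LinearEquiv.symm_apply_apply, he, map_add, hgf, hσ', zero_add]
  have hes' : ∀ w, e.symm (f w) = (w, 0) := by
    intro w
    rw [LinearEquiv.symm_apply_eq, he, map_zero, add_zero]
  set b : Basis (ι ⊕ μ) k V := (bW.prod bU).map e with hb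
  rw [pdet_actMat_eq b bV ρV ρV (LinearEquiv.refl k V) (fun s x => rfl)]
  have hbl : ∀ j, b (Sum.inl j) = f (bW j) := by
    intro j
    rw [hb, Basis.map_apply]
    have : (bW.prod bU) (Sum.inl j) = (bW j, 0) := by
      ext <;> simp
    rw [this, he, map_zero, add_zero]
  have hbr : ∀ j, b (Sum.inr j) = σ (bU j) := by
    intro j
    rw [hb, Basis.map_apply]
    have : (bW.prod bU) (Sum.inr j) = (0, bU j) := by
      ext <;> simp
    rw [this, he, map_zero, zero_add]
  apply pdet_fromBlocks
  · intro s i j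
    rw [actMat_apply, actMat_apply, hbl, ← hfρ, hb, Basis.map_repr, LinearEquiv.trans_apply, hes']
    simp
  · intro s i j
    rw [actMat_apply, actMat_apply, hbr, hb, Basis.map_repr, LinearEquiv.trans_apply]
    rw [Basis.prod_repr_inr, hes, hgρ, hσ']
  · intro s i j
    rw [actMat_apply, hbl, ← hfρ, hb, Basis.map_repr, LinearEquiv.trans_apply, hes']
    simp

end ModDet

end Pool.Agent.helper68.Zp
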