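import Pool.Agent.helper68.Zp.Ideals

/-!
# The ring of functions with poles at the poles of `h`, as a free module over `k[h]`
-/

open Polynomial Matrix Module
open scoped WithZero

namespace Pool.Agent.helper68.Zp

open Pool.Agent.helper90.Zp

section Model

set_option linter.unusedSectionVars false

variable {k K : Type*} [Field k] [Field K] [Algebra k K] [IsFunctionField k K]

/-- the poles of `h` -/
def poles (k : Type*) {K : Type*} [Field k] [Field K] [Algebra k K] (h : K) : Set (Place k K) :=
  {v : Place k K | h ∉ v.ring}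

/-- `h` as an element of the ring of functions without poles outside the poles of `h` -/
def hO (k : Type*) {K : Type*} [Field k] [Field K] [Algebra k K] (h : K) :
    regularOutside (poles k h) :=
  ⟨h, fun v hv => by
    by_contra hcon
    exact hv hcon⟩

theorem coe_aeval_hO (h : K) (P : k[X]) :
    ((aeval (hO k h) P : regularOutside (poles k h)) : K) = aeval h P := by
  have := Polynomial.aeval_algHom_apply (regularOutside (poles k h)).val (hO k h) P
  exact this.symm

theorem exists_model (h : K) (hh : Transcendental k h) :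
    ∃ (r : ℕ) (b : Fin r → regularOutside (poles k h))
      (φ : regularOutside (poles k h) →+* Matrix (Fin r) (Fin r) k[X]),
      (∀ e j, e * b j = ∑ i, aeval (hO k h) (φ e i j) * b i) ∧
      (∀ c : Fin r → k[X], ∑ i, aeval (hO k h) (c i) * b i = 0 → ∀ i, c i = 0) ∧
      (∀ x, ∃ c : Fin r → k[X], x = ∑ i, aeval (hO k h) (c i) * b i) := by
  classical
  obtain ⟨s, hs⟩ := exists_finset_span_eq h hh
  have hs' : ∀ f : K, f ∈ regularOutside (poles k h) ↔
      f ∈ Submodule.span (Algebra.adjoin k {h}) (s : Set K) := hs
  let _inst : Algebra k[X] (regularOutside (poles k h)) := (aeval (hO k h)).toAlgebra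
  have halg : ∀ P : k[X], algebraMap k[X] (regularOutside (poles k h)) P = aeval (hO k h) P :=
    fun P => rfl
  have hinj : Function.Injective (algebraMap k[X] (regularOutside (poles k h))) := by
    rw [injective_iff_map_eq_zero]
    intro P hP
    rw [halg] at hP
    have h1 : aeval h P = 0 := by rw [← coe_aeval_hO, hP]; rfl
    exact (transcendental_iff.mp hh) P h1
  have hfs : FaithfulSMul k[X] (regularOutside (poles k h)) :=
    (faithfulSMul_iff_algebraMap_injective _ _).mpr hinj
  have htf : IsTorsionFree k[X] (regularOutside (poles k h)) := inferInstance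
  have hfin : Module.Finite k[X] (regularOutside (poles k h)) := by
    have hmem : ∀ x ∈ s, x ∈ regularOutside (poles k h) := fun x hx =>
      (hs' x).mpr (Submodule.subset_span hx)
    let s' : Finset (regularOutside (poles k h)) := s.attach.image fun x => ⟨x.1, hmem x.1 x.2⟩
    refine ⟨⟨s', ?_⟩⟩
    rw [eq_top_iff]
    rintro ⟨f, hf⟩ _
    have hspan := (hs' f).mp hf
    -- induction on the span
    have key : ∀ f ∈ Submodule.span (Algebra.adjoin k {h}) (s : Set K),
        ∃ g : regularOutside (poles k h), (g : K) = f ∧ g ∈ Submodule.span k[X]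
          (s' : Set (regularOutside (poles k h))) := by
      intro f hf
      induction hf using Submodule.span_induction with
      | mem x hx =>
        refine ⟨⟨x, hmem x hx⟩, rfl, Submodule.subset_span ?_⟩
        simp only [s', Finset.coe_image, Set.mem_image]
        exact ⟨⟨x, hx⟩, by simp, rfl⟩
      | zero => exact ⟨0, rfl, Submodule.zero_mem _⟩
      | add x y _ _ hx hy =>
        obtain ⟨g1, h1, h1'⟩ := hx
        obtain ⟨g2, h2, h2'⟩ := hy
        exact ⟨g1 + g2, by rw [← h1, ← h2]; rfl, Submodule.add_mem _ h1' h2'⟩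
      | smul a x _ hx =>
        obtain ⟨g1, h1, h1'⟩ := hx
        obtain ⟨P, hP⟩ : ∃ P : k[X], aeval h P = (a : K) := by
          have ha : (a : K) ∈ (aeval h : k[X] →ₐ[k] K).range := by
            rw [← Algebra.adjoin_singleton_eq_range_aeval]; exact a.2
          exact ha
        refine ⟨P • g1, ?_, Submodule.smul_mem _ _ h1'⟩
        rw [Algebra.smul_def, halg, Subalgebra.smul_def, smul_eq_mul]
        change ((aeval (hO k h) P : regularOutside (poles k h)) : K) * (g1 : K) = _
        rw [coe_aeval_hO, h1, hP]
    obtain ⟨g, hg, hg'⟩ := key f hspan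
    have : g = ⟨f, hf⟩ := Subtype.ext hg
    rw [← this]
    exact hg'
  have hfree : Module.Free k[X] (regularOutside (poles k h)) := inferInstance
  let b := Module.finBasis k[X] (regularOutside (poles k h))
  refine ⟨finrank k[X] (regularOutside (poles k h)), b,
    (Algebra.leftMulMatrix b : _ →ₐ[k[X]] _).toRingHom, ?_, ?_, ?_⟩
  · intro e j
    have h1 : ∀ i, ((Algebra.leftMulMatrix b : _ →ₐ[k[X]] _).toRingHom e) i j =
        b.repr (e * b j) i := fun i => Algebra.leftMulMatrix_eq_repr_mul b e i j
    have h2 := b.sum_repr (e * b j)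
    conv_lhs => rw [← h2]
    apply Finset.sum_congr rfl
    intro i _
    rw [h1, Algebra.smul_def, halg]
  · intro c hc i
    have h1 := Fintype.linearIndependent_iff.mp b.linearIndependent c
    apply h1
    rw [← hc]
    apply Finset.sum_congr rfl
    intro i _
    rw [Algebra.smul_def, halg]
  · intro x
    refine ⟨fun i => b.repr x i, ?_⟩
    conv_lhs => rw [← b.sum_repr x]
    apply Finset.sum_congr rfl
    intro i _
    rw [Algebra.smul_def, halg]

theorem sum_fin_coe {r : ℕ} (h : K) (c : Fin r → k[X]) (b : Fin r → regularOutside (poles k h)) :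
    ((∑ i, aeval (hO k h) (c i) * b i : regularOutside (poles k h)) : K) =
      ∑ i, aeval h (c i) * (b i : K) := by
  have h1 : ((∑ i, aeval (hO k h) (c i) * b i : regularOutside (poles k h)) : K) =
      (regularOutside (poles k h)).val (∑ i, aeval (hO k h) (c i) * b i) := rfl
  rw [h1, map_sum]
  apply Finset.sum_congr rfl
  intro i _
  rw [map_mul]
  congr 1
  exact coe_aeval_hO h (c i)

/-- reduction of the model at a constant -/
theorem exists_quot_basis (h : K) {r : ℕ}
    {b : Fin r → regularOutside (poles k h)}
    {φ : regularOutside (poles k h) →+* Matrix (Fin r) (Fin r) k[X]}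
    (h1 : ∀ e j, e * b j = ∑ i, aeval (hO k h) (φ e i j) * b i)
    (h2 : ∀ c : Fin r → k[X], ∑ i, aeval (hO k h) (c i) * b i = 0 → ∀ i, c i = 0)
    (h3 : ∀ x, ∃ c : Fin r → k[X], x = ∑ i, aeval (hO k h) (c i) * b i) (a : k) :
    ∃ B : Basis (Fin r) k (regularOutside (poles k h) ⧸
        Ideal.span {hO k h - algebraMap k (regularOutside (poles k h)) a}),
      ∀ e, actMat B (quotAct _) e = (φ e).map (evalRingHom a) := by
  set I := Ideal.span {hO k h - algebraMap k (regularOutside (poles k h)) a} with hI
  have hred : ∀ P : k[X], ∀ x : regularOutside (poles k h),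
      Ideal.Quotient.mk I (aeval (hO k h) P * x) = (P.eval a) • Ideal.Quotient.mk I x := by
    intro P x
    have h4 : (P.eval a) • Ideal.Quotient.mk I x =
        Ideal.Quotient.mk I (algebraMap k _ (P.eval a) * x) := by
      rw [← Algebra.smul_def]; rfl
    rw [h4, Ideal.Quotient.mk_eq_mk_iff_sub_mem, ← sub_mul]
    apply Ideal.mul_mem_right
    rw [hI, Ideal.mem_span_singleton]
    have h5 := Polynomial.X_sub_C_dvd_sub_C_eval (p := P) (a := a)
    have h6 := map_dvd (aeval (hO k h)) h5
    simpa using h6
  have hLI : LinearIndependent k fun i => Ideal.Quotient.mk I (b i) := by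
    rw [Fintype.linearIndependent_iff]
    intro c hc i
    have h4 : Ideal.Quotient.mk I (∑ i, aeval (hO k h) (C (c i)) * b i) = 0 := by
      rw [← hc, map_sum]
      apply Finset.sum_congr rfl
      intro i _
      rw [hred, eval_C]
    rw [Ideal.Quotient.eq_zero_iff_mem, hI, Ideal.mem_span_singleton] at h4
    obtain ⟨y, hy⟩ := h4
    obtain ⟨d, hd⟩ := h3 y
    have h5 : ∑ i, aeval (hO k h) (C (c i) - (X - C a) * d i) * b i = 0 := by
      have h6 : ∀ i, aeval (hO k h) (C (c i) - (X - C a) * d i) * b i =
          aeval (hO k h) (C (c i)) * b i -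
            (hO k h - algebraMap k (regularOutside (poles k h)) a) *
              (aeval (hO k h) (d i) * b i) := by
        intro i
        rw [map_sub, map_mul, map_sub, aeval_X, aeval_C, aeval_C]
        ring
      rw [Finset.sum_congr rfl fun i _ => h6 i, Finset.sum_sub_distrib, ← Finset.mul_sum, ← hd,
        hy, sub_self]
    have h6 := h2 _ h5 i
    have h7 := congrArg (Polynomial.eval a) h6
    simpa using h7
  have hspan : ⊤ ≤ Submodule.span k (Set.range fun i => Ideal.Quotient.mk I (b i)) := by
    rintro y _
    obtain ⟨x, rfl⟩ := Ideal.Quotient.mk_surjective y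
    obtain ⟨c, hc⟩ := h3 x
    rw [hc, map_sum]
    apply Submodule.sum_mem
    intro i _
    rw [hred]
    exact Submodule.smul_mem _ _ (Submodule.subset_span ⟨i, rfl⟩)
  let B := Basis.mk hLI hspan
  have hB : ∀ i, B i = Ideal.Quotient.mk I (b i) := fun i => Basis.mk_apply hLI hspan i
  refine ⟨B, fun e => ?_⟩
  ext i j
  rw [actMat_apply, Matrix.map_apply]
  have h4 : quotAct I e (B j) = ∑ i, ((φ e i j).eval a) • B i := by
    have h5 : quotAct I e (B j) = Ideal.Quotient.mk I (e * b j) := by
      rw [map_mul, ← hB]; rfl
    rw [h5, h1, map_sum]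
    apply Finset.sum_congr rfl
    intro i _
    rw [hred, hB]
  rw [h4, B.repr_sum_self]
  rfl

end Model

end Pool.Agent.helper68.Zp
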