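import Mathlib

/-!
# Determinants of polynomials acting through commuting matrices

`φ : S →+* Matrix n n R`, `E ∈ S[X]`; `pdet φ E = det (∑ φ(e_j) X^j) ∈ R[X]`.
-/

open Polynomial Matrix

namespace Pool.Agent.helper68.Zp

section PDet

set_option linter.unusedSectionVars false

variable {S R : Type*} [CommRing S] [CommRing R] {n m : Type*} [Fintype n] [DecidableEq n]
  [Fintype m] [DecidableEq m]

/-- the matrix over `R[X]` through which a polynomial `E ∈ S[X]` acts -/
noncomputable def pmat (φ : S →+* Matrix n n R) : S[X] →+* Matrix n n R[X] :=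
  ((matPolyEquiv (R := R) (n := n)).symm.toRingEquiv.toRingHom).comp (Polynomial.mapRingHom φ)

theorem coeff_pmat (φ : S →+* Matrix n n R) (E : S[X]) (i j : n) (k : ℕ) :
    (pmat φ E i j).coeff k = φ (E.coeff k) i j := by
  have h : pmat φ E = matPolyEquiv.symm (E.map φ) := rfl
  rw [h, matPolyEquiv_symm_apply_coeff, coeff_map]

/-- the determinant of the action of a polynomial -/
noncomputable def pdet (φ : S →+* Matrix n n R) : S[X] →* R[X] :=
  Matrix.detMonoidHom.comp (pmat φ).toMonoidHom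

theorem pdet_apply (φ : S →+* Matrix n n R) (E : S[X]) : pdet φ E = (pmat φ E).det := rfl

theorem pmat_map {R' : Type*} [CommRing R'] (f : R →+* R') (φ : S →+* Matrix n n R) (E : S[X]) :
    pmat ((f.mapMatrix).comp φ) E = (pmat φ E).map (Polynomial.map f) := by
  ext i j k
  rw [coeff_pmat, Matrix.map_apply, coeff_map, coeff_pmat]
  rfl

theorem pdet_map {R' : Type*} [CommRing R'] (f : R →+* R') (φ : S →+* Matrix n n R) (E : S[X]) :
    pdet ((f.mapMatrix).comp φ) E = (pdet φ E).map f := by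
  rw [pdet_apply, pdet_apply, pmat_map, ← Polynomial.coe_mapRingHom, RingHom.map_det]
  rfl

theorem pmat_comp {S' : Type*} [CommRing S'] (g : S' →+* S) (φ : S →+* Matrix n n R) (E : S'[X]) :
    pmat (φ.comp g) E = pmat φ (E.map g) := by
  ext i j k
  rw [coeff_pmat, coeff_pmat, coeff_map]
  rfl

theorem pdet_comp {S' : Type*} [CommRing S'] (g : S' →+* S) (φ : S →+* Matrix n n R) (E : S'[X]) :
    pdet (φ.comp g) E = pdet φ (E.map g) := by
  rw [pdet_apply, pdet_apply, pmat_comp]

theorem coeff_map_C_mul (A : Matrix m n R) (M : Matrix n n R[X]) (i : m) (j : n) (k : ℕ) :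
    ((A.map C * M) i j).coeff k = (A * (Matrix.of fun a b => (M a b).coeff k)) i j := by
  rw [Matrix.mul_apply, Matrix.mul_apply, finsetSum_coeff]
  simp

theorem coeff_mul_map_C (M : Matrix m n R[X]) (B : Matrix n m R) (i : m) (j : m) (k : ℕ) :
    ((M * B.map C) i j).coeff k = ((Matrix.of fun a b => (M a b).coeff k) * B) i j := by
  rw [Matrix.mul_apply, Matrix.mul_apply, finsetSum_coeff]
  simp

theorem pdet_conj (φ : S →+* Matrix n n R) (ψ : S →+* Matrix m m R) (A : Matrix m n R)
    (B : Matrix n m R) (hAB : A * B = 1) (hBA : B * A = 1) (h : ∀ s, ψ s = A * φ s * B) (E : S[X]) :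
    pdet ψ E = pdet φ E := by
  rw [pdet_apply, pdet_apply]
  have h1 : pmat ψ E = A.map C * pmat φ E * B.map C := by
    ext i j k
    rw [coeff_pmat, coeff_mul_map_C, h]
    have h2 : (Matrix.of fun a b => ((A.map C * pmat φ E) a b).coeff k) = A * φ (E.coeff k) := by
      ext a b
      rw [Matrix.of_apply, coeff_map_C_mul]
      have h3 : (Matrix.of fun a b => (pmat φ E a b).coeff k) = φ (E.coeff k) := by
        ext a b
        rw [Matrix.of_apply, coeff_pmat]
      rw [h3]
    rw [h2]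
  rw [h1]
  apply Matrix.det_conj_of_mul_eq_one
  · rw [← Matrix.map_mul, hAB]
    simp
  · rw [← Matrix.map_mul, hBA]
    simp

theorem pdet_fromBlocks (φ : S →+* Matrix (n ⊕ m) (n ⊕ m) R) (φ₁ : S →+* Matrix n n R)
    (φ₂ : S →+* Matrix m m R) (h₁ : ∀ s i j, φ s (Sum.inl i) (Sum.inl j) = φ₁ s i j)
    (h₂ : ∀ s i j, φ s (Sum.inr i) (Sum.inr j) = φ₂ s i j)
    (h₀ : ∀ s i j, φ s (Sum.inr i) (Sum.inl j) = 0) (E : S[X]) :
    pdet φ E = pdet φ₁ E * pdet φ₂ E := by
  have h : pmat φ E = Matrix.fromBlocks (pmat φ₁ E)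
      (Matrix.of fun i j => pmat φ E (Sum.inl i) (Sum.inr j)) 0 (pmat φ₂ E) := by
    ext i j k
    rcases i with i | i <;> rcases j with j | j
    · rw [Matrix.fromBlocks_apply₁₁, coeff_pmat, coeff_pmat, h₁]
    · rw [Matrix.fromBlocks_apply₁₂, Matrix.of_apply]
    · rw [Matrix.fromBlocks_apply₂₁, coeff_pmat, h₀]; simp
    · rw [Matrix.fromBlocks_apply₂₂, coeff_pmat, coeff_pmat, h₂]
  rw [pdet_apply, h, Matrix.det_fromBlocks_zero₂₁]
  rfl

theorem pmat_expand (φ : S →+* Matrix n n R) {r : ℕ} (hr : 0 < r) (E : S[X]) :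
    pmat φ (expand S r E) = (pmat φ E).map (expand R r) := by
  ext i j k
  rw [coeff_pmat, Matrix.map_apply, coeff_expand hr, coeff_expand hr]
  split_ifs with h
  · rw [coeff_pmat]
  · simp

theorem pdet_expand (φ : S →+* Matrix n n R) {r : ℕ} (hr : 0 < r) (E : S[X]) :
    pdet φ (expand S r E) = expand R r (pdet φ E) := by
  rw [pdet_apply, pdet_apply, pmat_expand φ hr, AlgHom.map_det]
  rfl

end PDet

end Pool.Agent.helper68.Zp
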