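import Pool.Agent.helper68.Zp.Special

/-!
# The reciprocity law
-/

open Polynomial Matrix Module
open scoped WithZero

namespace Pool.Agent.helper68.Zp

open Pool.Agent.helper90.Zp

section OneSubX

variable {k : Type*} [Field k]

/-- `1 - X` has order `p ^ n` modulo `X ^ (p ^ n)` -/
theorem cast_eq_of_dvd (p n : ℕ) [Fact p.Prime] [CharP k p] (a b : ℕ)
    (h : (X : k[X]) ^ (p ^ n) ∣ (1 - X) ^ a - (1 - X) ^ b) : (a : ZMod (p ^ n)) = b := by
  set M := p ^ n with hM
  have hMpos : 0 < M := pow_pos (Fact.out : p.Prime).pos n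
  let I : Ideal k[X] := Ideal.span {(X : k[X]) ^ M}
  let u : k[X] ⧸ I := Ideal.Quotient.mk I (1 - X)
  have hzero : ∀ P : k[X], Ideal.Quotient.mk I P = 0 ↔ (X : k[X]) ^ M ∣ P := by
    intro P
    rw [Ideal.Quotient.eq_zero_iff_mem, Ideal.mem_span_singleton]
  have hpow : ∀ i, (1 - X : k[X]) ^ (p ^ i) = 1 - X ^ (p ^ i) := by
    intro i
    rw [sub_pow_char_pow]; simp
  have hu : u ^ M = 1 := by
    rw [← map_pow, hpow, map_sub, map_one, sub_eq_self, hzero]
  let U : (k[X] ⧸ I)ˣ := Units.ofPowEqOne u M hu hMpos.ne'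
  have hU : (U : k[X] ⧸ I) = u := rfl
  have hUM : U ^ M = 1 := by
    ext
    rw [Units.val_pow_eq_pow_val, hU, hu]; rfl
  have hord : orderOf U = M := by
    have h1 : orderOf U ∣ p ^ n := orderOf_dvd_of_pow_eq_one hUM
    obtain ⟨i, hi, hi'⟩ := (Nat.dvd_prime_pow (Fact.out : p.Prime)).mp h1
    rcases Nat.lt_or_ge i n with hin | hin
    · exfalso
      have h2 : U ^ (p ^ i) = 1 := by rw [← hi']; exact pow_orderOf_eq_one U
      have h3 : u ^ (p ^ i) = 1 := by
        have := congrArg (fun z : (k[X] ⧸ I)ˣ => (z : k[X] ⧸ I)) h2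
        simpa [hU] using this
      rw [← map_pow, hpow, map_sub, map_one, sub_eq_self, hzero] at h3
      have h4 := Polynomial.natDegree_le_of_dvd h3 (pow_ne_zero _ X_ne_zero)
      rw [natDegree_X_pow, natDegree_X_pow] at h4
      have h5 : p ^ i < p ^ n := Nat.pow_lt_pow_right (Fact.out : p.Prime).one_lt hin
      omega
    · have : i = n := le_antisymm hi hin
      rw [hi', this]
  have h5 : U ^ a = U ^ b := by
    ext
    rw [Units.val_pow_eq_pow_val, Units.val_pow_eq_pow_val, hU, ← map_pow, ← map_pow, ← sub_eq_zero,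
      ← map_sub, hzero]
    exact h
  rw [pow_eq_pow_iff_modEq, hord] at h5
  exact (ZMod.natCast_eq_natCast_iff _ _ _).mpr h5

end OneSubX

section Recip

set_option linter.unusedSectionVars false

variable {k K : Type*} [Field k] [Field K] [Algebra k K] [IsFunctionField k K]

theorem val_eq_one_of_isAlgebraic {g : K} (hg : IsAlgebraic k g) (hg0 : g ≠ 0) (v : Place k K) :
    v.val g = 1 := by
  by_contra hne
  exact (Valuation.transcendental_of_ne_one k g hg0 hne) hg

open Classical in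
/-- norm of the value of `E` at `v` as polynomial over `k` -/
noncomputable def placeNorm (p s : ℕ) [Fact p.Prime] [CharP k p] {T : Set (Place k K)}
    (E : (regularOutside T)[X]) (v : Place k K) : k[X] :=
  ∏ l ∈ Finset.range s, (locDet T E v).map (iterateFrobenius k p l)

variable [Finite k]

theorem map_placeNorm (p s : ℕ) [Fact p.Prime] [CharP k p] (hs : Nat.card k = p ^ s)
    {T : Set (Place k K)} (E : (regularOutside T)[X]) (v : Place k K) (hv : v ∉ T) :
    (placeNorm p s E v).map (algebraMap k (IsLocalRing.ResidueField v.ring)) =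
      frobNorm p E v hv := by
  have : Finite (IsLocalRing.ResidueField v.ring) := Module.finite_of_finite k
  have : CharP (IsLocalRing.ResidueField v.ring) p :=
    charP_of_injective_algebraMap (algebraMap k (IsLocalRing.ResidueField v.ring)).injective p
  have h1 := map_fieldNorm (k := k) p s hs
    (Module.finBasis k (IsLocalRing.ResidueField v.ring)) (E.map (evalAt v hv))
  have h2 : placeNorm p s E v = fieldNorm p s
      (Module.finBasis k (IsLocalRing.ResidueField v.ring)) (E.map (evalAt v hv)) := by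
    rw [placeNorm, fieldNorm, locDet, dif_pos hv]
  rw [h2, h1]
  rfl

theorem dvd_placeNorm (p s n : ℕ) [Fact p.Prime] [CharP k p] (hs : Nat.card k = p ^ s)
    {T : Set (Place k K)} (E : (regularOutside T)[X]) (v : Place k K) (hv : v ∉ T) (a : ℕ)
    (ha : Polynomial.X ^ (p ^ n) ∣ frobNorm p E v hv - (1 - Polynomial.X) ^ a) :
    (X : k[X]) ^ (p ^ n) ∣ placeNorm p s E v - (1 - X) ^ a := by
  rw [← map_placeNorm p s hs E v hv] at ha
  have h1 : (placeNorm p s E v).map (algebraMap k (IsLocalRing.ResidueField v.ring)) -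
      (1 - Polynomial.X) ^ a =
      (placeNorm p s E v - (1 - X) ^ a).map (algebraMap k (IsLocalRing.ResidueField v.ring)) := by
    rw [Polynomial.map_sub, Polynomial.map_pow, Polynomial.map_sub, Polynomial.map_one,
      Polynomial.map_X]
  have h2 : (X : (IsLocalRing.ResidueField v.ring)[X]) ^ (p ^ n) =
      ((X : k[X]) ^ (p ^ n)).map (algebraMap k (IsLocalRing.ResidueField v.ring)) := by
    rw [Polynomial.map_pow, Polynomial.map_X]
  rw [h1, h2, Polynomial.map_dvd_map' ] at ha
  exact ha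

/-- `locDet` only depends on the values at the place -/
theorem locDet_inclusion {T T' : Set (Place k K)} (hTT' : T ⊆ T') (E : (regularOutside T)[X])
    (ι : regularOutside T →+* regularOutside T') (hι : ∀ x, (ι x : K) = x)
    (v : Place k K) (hv : v ∉ T') : locDet T' (E.map ι) v = locDet T E v := by
  have hv' : v ∉ T := fun h => hv (hTT' h)
  rw [locDet, locDet, dif_pos hv, dif_pos hv', Polynomial.map_map]
  congr 2
  ext x
  have : (⟨(ι x : K), (ι x).2 v hv⟩ : v.ring) = ⟨(x : K), x.2 v hv'⟩ := Subtype.ext (hι x)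
  change IsLocalRing.residue v.ring ⟨(ι x : K), (ι x).2 v hv⟩ =
    IsLocalRing.residue v.ring ⟨(x : K), x.2 v hv'⟩
  rw [this]

theorem exists_exp_bound {T : Set (Place k K)} (hT : T.Finite) (M : ℕ) (hM : 0 < M)
    (E : (regularOutside T)[X]) :
    ∃ m : ℕ, ∀ v ∈ T, ∀ j, v.val (E.coeff j : K) ^ M ≤ WithZero.exp (m : ℤ) := by
  classical
  let f : Place k K → ℕ → ℕ := fun v j => (WithZero.log (v.val (E.coeff j : K) ^ M)).toNat
  refine ⟨∑ v ∈ hT.toFinset, ∑ j ∈ Finset.range (E.natDegree + 1), f v j, fun v hv j => ?_⟩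
  by_cases hj : j ∈ Finset.range (E.natDegree + 1)
  · have h1 : f v j ≤ ∑ j ∈ Finset.range (E.natDegree + 1), f v j :=
      Finset.single_le_sum (f := fun j => f v j) (fun _ _ => Nat.zero_le _) hj
    have h2 : ∑ j ∈ Finset.range (E.natDegree + 1), f v j ≤
        ∑ v ∈ hT.toFinset, ∑ j ∈ Finset.range (E.natDegree + 1), f v j :=
      Finset.single_le_sum (f := fun v => ∑ j ∈ Finset.range (E.natDegree + 1), f v j)
        (fun _ _ => Nat.zero_le _) (hT.mem_toFinset.mpr hv)
    by_cases h0 : v.val (E.coeff j : K) ^ M = 0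
    · rw [h0]; exact zero_le
    · rw [← WithZero.exp_log h0, WithZero.exp_le_exp]
      have h3 : WithZero.log (v.val (E.coeff j : K) ^ M) ≤ (f v j : ℤ) := Int.self_le_toNat _
      refine h3.trans ?_
      exact_mod_cast h1.trans h2
  · rw [Finset.mem_range, not_lt] at hj
    rw [coeff_eq_zero_of_natDegree_lt (by omega)]
    have : (((0 : regularOutside T)) : K) = 0 := rfl
    rw [this, map_zero, zero_pow hM.ne']
    exact zero_le

theorem ord_eq_toNat_sub (g : K) (hg0 : g ≠ 0) (hg1 : g - 1 ≠ 0) (v : Place k K) :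
    v.ord g = ((v.ord (g / (g - 1))).toNat : ℤ) - ((v.ord (g / (g - 1) - 1)).toNat : ℤ) := by
  have h1 : g / (g - 1) = g * (g - 1)⁻¹ := div_eq_mul_inv _ _
  have h2 : g / (g - 1) - 1 = (g - 1)⁻¹ := by field_simp; ring
  have h3 : v.ord (g / (g - 1)) = v.ord g - v.ord (g - 1) := by
    rw [h1, v.ord_mul hg0 (inv_ne_zero hg1), v.ord_inv]; ring
  have h4 : v.ord (g / (g - 1) - 1) = - v.ord (g - 1) := by rw [h2, v.ord_inv]
  rw [h3, h4]
  have hvg := v.val_eq_exp_neg_ord hg0
  have hvg1 := v.val_eq_exp_neg_ord hg1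
  have h10 : v.val (1 : K) = WithZero.exp (0 : ℤ) := by rw [map_one, WithZero.exp_zero]
  rcases lt_trichotomy (v.ord g) 0 with h | h | h
  · have h5 : v.val (1 : K) < v.val g := by
      rw [h10, hvg, WithZero.exp_lt_exp]; omega
    have h6 : v.val (g - 1) = v.val g := Valuation.map_sub_eq_of_lt_left _ h5
    rw [hvg, hvg1, WithZero.exp_inj] at h6
    omega
  · have h5 : v.val (g - 1) ≤ 1 := by
      refine (Valuation.map_sub _ _ _).trans (max_le ?_ ?_)
      · rw [hvg, h]; simp
      · simp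
    rw [hvg1, ← WithZero.exp_zero, WithZero.exp_le_exp] at h5
    omega
  · have h5 : v.val g < v.val (1 : K) := by
      rw [h10, hvg, WithZero.exp_lt_exp]; omega
    have h6 : v.val (g - 1) = v.val (1 : K) := Valuation.map_sub_eq_of_lt_right _ h5
    rw [h10, hvg1, WithZero.exp_inj] at h6
    omega

/-- `placeNorm` multiplied out over a set of places -/
theorem dvd_prod_placeNorm (p s n : ℕ) [Fact p.Prime] [CharP k p] (hs : Nat.card k = p ^ s)
    {T : Set (Place k K)} (E : (regularOutside T)[X]) (a : Place k K → ℕ)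
    (ha : ∀ v (hv : v ∉ T), Polynomial.X ^ (p ^ n) ∣ frobNorm p E v hv - (1 - Polynomial.X) ^ (a v))
    (Z : Finset (Place k K)) (hZ : ∀ v ∈ Z, v ∉ T) (c : Place k K → ℕ) :
    (X : k[X]) ^ (p ^ n) ∣ (∏ l ∈ Finset.range s, (∏ v ∈ Z, locDet T E v ^ c v).map
      (iterateFrobenius k p l)) - (1 - X) ^ (∑ v ∈ Z, a v * c v) := by
  have h1 : (∏ l ∈ Finset.range s, (∏ v ∈ Z, locDet T E v ^ c v).map
      (iterateFrobenius k p l)) = ∏ v ∈ Z, placeNorm p s E v ^ c v := by
    have h2 : ∀ l, (∏ v ∈ Z, locDet T E v ^ c v).map (iterateFrobenius k p l) =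
        ∏ v ∈ Z, ((locDet T E v).map (iterateFrobenius k p l)) ^ c v := by
      intro l
      rw [Polynomial.map_prod]
      apply Finset.prod_congr rfl
      intro v _
      rw [Polynomial.map_pow]
    rw [Finset.prod_congr rfl fun l _ => h2 l, Finset.prod_comm]
    apply Finset.prod_congr rfl
    intro v _
    rw [placeNorm, Finset.prod_pow]
  rw [h1, ← Ideal.mem_span_singleton, ← Ideal.Quotient.mk_eq_mk_iff_sub_mem, map_prod]
  rw [← Finset.prod_pow_eq_pow_sum, map_prod]
  apply Finset.prod_congr rfl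
  intro v hv
  rw [map_pow, pow_mul, map_pow]
  congr 1
  rw [Ideal.Quotient.mk_eq_mk_iff_sub_mem, Ideal.mem_span_singleton]
  exact dvd_placeNorm p s n hs E v (hZ v hv) (a v) (ha v (hZ v hv))

theorem reciprocity (p : ℕ) [Fact p.Prime] [CharP k p]
    (T : Set (Place k K)) (hT : T.Finite) (n : ℕ)
    (E : (regularOutside T)[X]) (hE0 : E.coeff 0 = 1) (a : Place k K → ℕ)
    (ha : ∀ v (hv : v ∉ T), Polynomial.X ^ (p ^ n) ∣ frobNorm p E v hv - (1 - Polynomial.X) ^ (a v)) :
    ∃ m : ℕ, ∀ g : K, g ≠ 0 → (∀ v ∈ T, v.val (g - 1) ≤ WithZero.exp (-(m : ℤ))) →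
      (((∑ᶠ (v : Place k K) (_ : v ∉ T), v.ord g * (a v : ℤ)) : ℤ) : ZMod (p ^ n)) = 0 := by
  classical
  have hMpos : 0 < p ^ n := pow_pos (Fact.out : p.Prime).pos n
  obtain ⟨s, hs⟩ : ∃ s, Nat.card k = p ^ s := by
    have := Fintype.ofFinite k
    obtain ⟨s, _, hs⟩ := FiniteField.card k p
    exact ⟨s, by rw [Nat.card_eq_fintype_card, hs]⟩
  obtain ⟨m₀, hm₀⟩ := exists_exp_bound hT (p ^ n) hMpos E
  refine ⟨m₀ + 1, fun g hg0 hg => ?_⟩
  by_cases halg : IsAlgebraic k g
  · have h1 : (∑ᶠ (v : Place k K) (_ : v ∉ T), v.ord g * (a v : ℤ)) = 0 := by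
      rw [finsum_congr (g := fun _ => (0 : ℤ)), finsum_zero]
      intro v
      have h2 : v.ord g = 0 := by
        rw [Place.ord, val_eq_one_of_isAlgebraic halg hg0 v]; simp
      rw [h2]; simp
    rw [h1]; simp
  have hg1 : g - 1 ≠ 0 := by
    intro h
    rw [sub_eq_zero.mp h] at halg
    exact halg isAlgebraic_one
  set h := g / (g - 1) with hh_def
  have hh1 : h - 1 = (g - 1)⁻¹ := by rw [hh_def]; field_simp; ring
  have hh : Transcendental k h := by
    intro hcon
    apply halg
    have h1 : g = h * (h - 1)⁻¹ := by rw [hh1, inv_inv, hh_def]; field_simp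
    rw [h1]
    exact hcon.mul (IsAlgebraic.inv (hcon.sub isAlgebraic_one))
  -- values at `T`
  have hvT : ∀ v ∈ T, v.val g = 1 := by
    intro v hv
    have h1 := hg v hv
    have h2 : v.val (g - 1) < v.val (1 : K) := by
      rw [map_one, ← WithZero.exp_zero]
      refine h1.trans_lt ?_
      rw [WithZero.exp_lt_exp]; push_cast; omega
    have h3 : g = (g - 1) + 1 := by ring
    rw [h3, Valuation.map_add_eq_of_lt_right _ h2, map_one]
  have hvh : ∀ v ∈ T, v.val h⁻¹ = v.val (g - 1) := by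
    intro v hv
    rw [hh_def, inv_div, map_div₀, hvT v hv, div_one]
  have hsub : T ⊆ poles k h := by
    intro v hv hcon
    have h1 := hvh v hv
    have h2 : v.val (g - 1) < 1 := by
      rw [← WithZero.exp_zero]
      refine (hg v hv).trans_lt ?_
      rw [WithZero.exp_lt_exp]; push_cast; omega
    rw [← h1, map_inv₀] at h2
    have hh0 : h ≠ 0 := by
      intro h0; rw [h0] at hh; exact hh isAlgebraic_zero
    have h3 := (inv_lt_one₀ (zero_lt_iff.mpr ((_root_.map_ne_zero _).mpr hh0))).mp h2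
    exact absurd ((v.val_le_one_iff _).mpr hcon) (not_le.mpr h3)
  let ι : regularOutside T →+* regularOutside (poles k h) :=
    { toFun := fun f => ⟨f.1, fun v hv => f.2 v fun hvT => hv (hsub hvT)⟩
      map_one' := rfl
      map_mul' := fun _ _ => rfl
      map_zero' := rfl
      map_add' := fun _ _ => rfl }
  have hι : ∀ x, (ι x : K) = x := fun x => rfl
  obtain ⟨r, b, φ, h1, h2, h3⟩ := exists_model h hh
  have hdeg : ∀ j, p ^ n * ((pdet φ (E.map ι)).coeff j).natDegree ≤ j := by
    intro j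
    apply degree_bound p n h hh h1 h2 h3
    · rw [coeff_map, hE0, map_one]
    · intro j _ w hw
      rw [coeff_map, hι]
      have hw' : h⁻¹ ∈ w.ring := by
        by_contra hcon; exact hw hcon
      by_cases hwT : w ∈ T
      · rw [← w.val_le_one_iff, map_mul, map_pow, hvh w hwT]
        calc _ ≤ WithZero.exp (m₀ : ℤ) * WithZero.exp (-((m₀ + 1 : ℕ) : ℤ)) :=
              mul_le_mul' (hm₀ w hwT j) (hg w hwT)
          _ ≤ 1 := by
              rw [← WithZero.exp_add, ← WithZero.exp_zero, WithZero.exp_le_exp]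
              push_cast; omega
      · exact w.ring.mul_mem _ _ (w.ring.pow_mem ((E.coeff j).2 w hwT) _) hw'
  have hx0 : h - algebraMap k K 0 ≠ 0 := by
    rw [map_zero, sub_zero]
    intro h0; rw [h0] at hh; exact hh isAlgebraic_zero
  have hx1 : h - algebraMap k K 1 ≠ 0 := by
    rw [map_one, hh1]; exact inv_ne_zero hg1
  have hs0 := special h hh h1 h2 h3 0 hx0 (E.map ι)
  have hs1 := special h hh h1 h2 h3 1 hx1 (E.map ι)
  set Z0 := (finite_zeros (k := k) hx0).toFinset with hZ0
  set Z1 := (finite_zeros (k := k) hx1).toFinset with hZ1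
  have hZpole : ∀ (c : k) (v : Place k K), v.val (h - algebraMap k K c) < 1 → v ∉ poles k h := by
    intro c v hv hcon
    exact absurd (val_sub_algebraMap_of_pole h c v hcon) (not_lt.mpr hv.le)
  have hZ0p : ∀ v ∈ Z0, v ∉ poles k h := fun v hv =>
    hZpole 0 v (by simpa [hZ0] using hv)
  have hZ1p : ∀ v ∈ Z1, v ∉ poles k h := fun v hv =>
    hZpole 1 v (by simpa [hZ1] using hv)
  have hdvd : (X : k[X]) ^ (p ^ n) ∣ (pdet φ (E.map ι)).map (evalRingHom 0) -
      (pdet φ (E.map ι)).map (evalRingHom 1) := by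
    rw [X_pow_dvd_iff]
    intro d hd
    have h4 := hdeg d
    have h5 : ((pdet φ (E.map ι)).coeff d).natDegree = 0 := by
      by_contra hne
      have : 1 ≤ ((pdet φ (E.map ι)).coeff d).natDegree := Nat.one_le_iff_ne_zero.mpr hne
      have : p ^ n * 1 ≤ p ^ n * ((pdet φ (E.map ι)).coeff d).natDegree := Nat.mul_le_mul_left _ this
      omega
    rw [coeff_sub, coeff_map, coeff_map, natDegree_eq_zero.mp h5 |>.choose_spec.symm]
    simp
  have hloc : ∀ v, v ∉ poles k h → locDet (poles k h) (E.map ι) v = locDet T E v := fun v hv =>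
    locDet_inclusion hsub E ι hι v hv
  rw [hs0, hs1, Finset.prod_congr rfl fun v hv => by rw [hloc v (hZ0p v hv)],
    Finset.prod_congr (s₁ := Z1) rfl fun v hv => by rw [hloc v (hZ1p v hv)]] at hdvd
  have hd0 := dvd_prod_placeNorm p s n hs E a ha Z0 (fun v hv hvT => hZ0p v hv (hsub hvT))
    fun v => (v.ord (h - algebraMap k K 0)).toNat
  have hd1 := dvd_prod_placeNorm p s n hs E a ha Z1 (fun v hv hvT => hZ1p v hv (hsub hvT))
    fun v => (v.ord (h - algebraMap k K 1)).toNat
  have hd2 : (X : k[X]) ^ (p ^ n) ∣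
      (∏ l ∈ Finset.range s, (∏ v ∈ Z0, locDet T E v ^
        (v.ord (h - algebraMap k K 0)).toNat).map (iterateFrobenius k p l)) -
      (∏ l ∈ Finset.range s, (∏ v ∈ Z1, locDet T E v ^
        (v.ord (h - algebraMap k K 1)).toNat).map (iterateFrobenius k p l)) := by
    rw [← Ideal.mem_span_singleton, ← Ideal.Quotient.mk_eq_mk_iff_sub_mem, map_prod, map_prod]
    apply Finset.prod_congr rfl
    intro l _
    rw [Ideal.Quotient.mk_eq_mk_iff_sub_mem, Ideal.mem_span_singleton, ← Polynomial.map_sub]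
    have h6 := Polynomial.map_dvd (iterateFrobenius k p l) hdvd
    rwa [Polynomial.map_pow, Polynomial.map_X] at h6
  have hfinal : (X : k[X]) ^ (p ^ n) ∣
      (1 - X) ^ (∑ v ∈ Z0, a v * (v.ord (h - algebraMap k K 0)).toNat) -
      (1 - X) ^ (∑ v ∈ Z1, a v * (v.ord (h - algebraMap k K 1)).toNat) := by
    have h7 := dvd_sub (dvd_add hd2 hd1) hd0
    convert h7 using 1
    ring
  have hcast := cast_eq_of_dvd p n _ _ hfinal
  -- the sum
  have hall : ∀ v : Place k K, v.ord g = ((v.ord (h - algebraMap k K 0)).toNat : ℤ) -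
      ((v.ord (h - algebraMap k K 1)).toNat : ℤ) := by
    intro v
    rw [map_zero, map_one, sub_zero]
    exact ord_eq_toNat_sub g hg0 hg1 v
  have hout0 : ∀ v, v ∉ Z0 → (v.ord (h - algebraMap k K 0)).toNat = 0 := by
    intro v hv
    rw [hZ0, Set.Finite.mem_toFinset, Set.mem_ofPred_eq, not_lt, v.val_eq_exp_neg_ord hx0,
        ← WithZero.exp_zero, WithZero.exp_le_exp] at hv
    omega
  have hout1 : ∀ v, v ∉ Z1 → (v.ord (h - algebraMap k K 1)).toNat = 0 := by
    intro v hv
    rw [hZ1, Set.Finite.mem_toFinset, Set.mem_ofPred_eq, not_lt, v.val_eq_exp_neg_ord hx1,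
        ← WithZero.exp_zero, WithZero.exp_le_exp] at hv
    omega
  have hsum1 : (∑ᶠ (v : Place k K) (_ : v ∉ T), v.ord g * (a v : ℤ)) =
      ∑ᶠ v : Place k K, v.ord g * (a v : ℤ) := by
    apply finsum_congr
    intro v
    by_cases hv : v ∈ T
    · have h8 : v.ord g = 0 := by rw [Place.ord, hvT v hv]; simp
      rw [h8]; simp
    · simp [hv]
  have hsum2 : ∑ᶠ v : Place k K, v.ord g * (a v : ℤ) =
      ∑ v ∈ Z0 ∪ Z1, v.ord g * (a v : ℤ) := by
    apply finsum_eq_sum_of_support_subset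
    intro v hv
    by_contra hcon
    rw [Finset.mem_coe, Finset.mem_union, not_or] at hcon
    apply hv
    change v.ord g * (a v : ℤ) = 0
    rw [hall v, hout0 v hcon.1, hout1 v hcon.2]
    simp
  have hsum3 : ∑ v ∈ Z0 ∪ Z1, v.ord g * (a v : ℤ) =
      ((∑ v ∈ Z0, a v * (v.ord (h - algebraMap k K 0)).toNat : ℕ) : ℤ) -
      ((∑ v ∈ Z1, a v * (v.ord (h - algebraMap k K 1)).toNat : ℕ) : ℤ) := by
    rw [Finset.sum_subset (Finset.subset_union_left : Z0 ⊆ Z0 ∪ Z1) fun v _ hv => by
        rw [hout0 v hv, mul_zero],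
      Finset.sum_subset (Finset.subset_union_right : Z1 ⊆ Z0 ∪ Z1) fun v _ hv => by
        rw [hout1 v hv, mul_zero]]
    rw [Nat.cast_sum, Nat.cast_sum, ← Finset.sum_sub_distrib]
    apply Finset.sum_congr rfl
    intro v _
    rw [hall v, Nat.cast_mul, Nat.cast_mul, sub_mul, mul_comm (a v : ℤ), mul_comm (a v : ℤ)]
  rw [hsum1, hsum2, hsum3, Int.cast_sub, Int.cast_natCast, Int.cast_natCast, hcast, sub_self]

end Recip

end Pool.Agent.helper68.Zp
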