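import Pool.Agent.helper68.Zp.Degree

/-!
# Specialisation of the determinant
-/

open Polynomial Matrix Module
open scoped WithZero

namespace Pool.Agent.helper68.Zp

open Pool.Agent.helper90.Zp

section Special

set_option linter.unusedSectionVars false

variable {k K : Type*} [Field k] [Field K] [Algebra k K] [IsFunctionField k K]

theorem poles_nonempty (h : K) (hh : Transcendental k h) : (poles k h).Nonempty := by
  have hh' : Transcendental k h⁻¹ := by
    rw [Transcendental, IsAlgebraic.inv_iff]; exact hh
  have hh0 : h ≠ 0 := by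
    rintro rfl
    exact hh isAlgebraic_zero
  obtain ⟨w, hw⟩ := Place.exists_of_transcendental h⁻¹ hh'
  refine ⟨w, fun hcon => ?_⟩
  rw [map_inv₀] at hw
  have hw1 := (inv_lt_one₀ (zero_lt_iff.mpr ((_root_.map_ne_zero _).mpr hh0))).mp hw
  exact absurd ((w.val_le_one_iff _).mpr hcon) (not_le.mpr hw1)

theorem finite_zeros {x : K} (hx : x ≠ 0) : {v : Place k K | v.val x < 1}.Finite :=
  (finite_val_ne_one hx).subset fun _ hv => ne_of_lt hv

/-- the divisor of zeros of `x` as a multiset -/
noncomputable def zeroDiv (k : Type*) {K : Type*} [Field k] [Field K] [Algebra k K]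
    [IsFunctionField k K] (x : K) (hx : x ≠ 0) : Multiset (Place k K) :=
  ∑ v ∈ (finite_zeros (k := k) hx).toFinset, (v.ord x).toNat • {v}

theorem prod_zeroDiv (x : K) (hx : x ≠ 0) {M : Type*} [CommMonoid M] (D : Place k K → M) :
    ((zeroDiv k x hx).map D).prod =
      ∏ v ∈ (finite_zeros (k := k) hx).toFinset, D v ^ (v.ord x).toNat := by
  classical
  rw [zeroDiv]
  have : ∀ s : Finset (Place k K), ((∑ v ∈ s, (v.ord x).toNat • ({v} : Multiset (Place k K))).map
      D).prod = ∏ v ∈ s, D v ^ (v.ord x).toNat := by
    intro s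
    induction s using Finset.induction_on with
    | empty => simp
    | insert a s ha ih =>
      rw [Finset.sum_insert ha, Finset.prod_insert ha, Multiset.map_add, Multiset.prod_add, ih,
        Multiset.map_nsmul, Multiset.prod_nsmul]
      simp
  exact this _

theorem count_zeroDiv [DecidableEq (Place k K)] (x : K) (hx : x ≠ 0) (v : Place k K) :
    (zeroDiv k x hx).count v = (v.ord x).toNat := by
  rw [zeroDiv, Multiset.count_sum']
  by_cases hv : v ∈ (finite_zeros (k := k) hx).toFinset
  · rw [Finset.sum_eq_single_of_mem v hv]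
    · rw [Multiset.count_nsmul, Multiset.count_singleton_self, mul_one]
    · intro w _ hwv
      rw [Multiset.count_nsmul, Multiset.count_singleton, if_neg (Ne.symm hwv), mul_zero]
  · rw [Finset.sum_eq_zero]
    · rw [Set.Finite.mem_toFinset, Set.mem_ofPred_eq, not_lt, v.val_eq_exp_neg_ord hx,
        ← WithZero.exp_zero, WithZero.exp_le_exp] at hv
      omega
    · intro w hw
      have hwv : w ≠ v := by rintro rfl; exact hv hw
      rw [Multiset.count_nsmul, Multiset.count_singleton, if_neg (Ne.symm hwv), mul_zero]

theorem val_sub_algebraMap_of_pole (h : K) (a : k) (v : Place k K) (hv : v ∈ poles k h) :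
    1 < v.val (h - algebraMap k K a) := by
  have h1 : 1 < v.val h := by
    rw [← not_le, Place.val_le_one_iff]; exact hv
  have h2 : v.val (algebraMap k K a) ≤ 1 := (v.val_le_one_iff _).mpr (v.algebraMap_mem a)
  have h3 : v.val (algebraMap k K a) < v.val h := h2.trans_lt h1
  rw [Valuation.map_sub_eq_of_lt_left _ h3]
  exact h1

theorem span_eq_idealOf [DecidableEq (Place k K)] (h : K) (a : k)
    (hx : h - algebraMap k K a ≠ 0) :
    Ideal.span {hO k h - algebraMap k (regularOutside (poles k h)) a} =
      idealOf (poles k h) (zeroDiv k (h - algebraMap k K a) hx) := by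
  ext f
  rw [Ideal.mem_span_singleton, mem_idealOf]
  have hcoe : ((hO k h - algebraMap k (regularOutside (poles k h)) a : regularOutside (poles k h)) :
    K) = h - algebraMap k K a := rfl
  have hval : ∀ v : Place k K, v ∉ poles k h → v.val (h - algebraMap k K a) =
      WithZero.exp (-(((v.ord (h - algebraMap k K a)).toNat : ℕ) : ℤ)) := by
    intro v hv
    have h1 : h - algebraMap k K a ∈ v.ring := by
      rw [← hcoe]
      exact Subtype.prop (hO k h - algebraMap k (regularOutside (poles k h)) a) v hv
    rw [← v.val_le_one_iff, v.val_eq_exp_neg_ord hx, ← WithZero.exp_zero, WithZero.exp_le_exp] at h1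
    rw [v.val_eq_exp_neg_ord hx]
    congr 1
    omega
  constructor
  · rintro ⟨y, rfl⟩ v hv
    rw [count_zeroDiv, ← hval v hv]
    change v.val ((h - algebraMap k K a) * (y : K)) ≤ _
    rw [map_mul]
    calc _ ≤ v.val (h - algebraMap k K a) * 1 := by
          gcongr
          exact (v.val_le_one_iff _).mpr (y.2 v hv)
      _ = _ := mul_one _
  · intro hf
    refine ⟨⟨(f : K) / (h - algebraMap k K a), fun v hv => ?_⟩, ?_⟩
    · rw [← v.val_le_one_iff, map_div₀]
      have h1 := hf v hv
      rw [count_zeroDiv, ← hval v hv] at h1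
      rw [div_le_one₀ (zero_lt_iff.mpr ((_root_.map_ne_zero _).mpr hx))]
      exact h1
    · apply Subtype.ext
      change (f : K) = (h - algebraMap k K a) * ((f : K) / (h - algebraMap k K a))
      field_simp

theorem special (h : K) (hh : Transcendental k h) {r : ℕ}
    {b : Fin r → regularOutside (poles k h)}
    {φ : regularOutside (poles k h) →+* Matrix (Fin r) (Fin r) k[X]}
    (h1 : ∀ e j, e * b j = ∑ i, aeval (hO k h) (φ e i j) * b i)
    (h2 : ∀ c : Fin r → k[X], ∑ i, aeval (hO k h) (c i) * b i = 0 → ∀ i, c i = 0)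
    (h3 : ∀ x, ∃ c : Fin r → k[X], x = ∑ i, aeval (hO k h) (c i) * b i) (a : k)
    (hx : h - algebraMap k K a ≠ 0) (E : (regularOutside (poles k h))[X]) :
    (pdet φ E).map (evalRingHom a) =
      ∏ v ∈ (finite_zeros (k := k) hx).toFinset,
        locDet (poles k h) E v ^ (v.ord (h - algebraMap k K a)).toNat := by
  classical
  obtain ⟨B, hB⟩ := exists_quot_basis h h1 h2 h3 a
  have hT := poles_nonempty h hh
  have h4 : (pdet φ E).map (evalRingHom a) = pdet (actMat B (quotAct _)) E := by
    rw [← pdet_map]
    congr 2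
    ext e : 1
    exact (hB e).symm
  rw [h4]
  have key : ∀ I : Ideal (regularOutside (poles k h)),
      I = idealOf (poles k h) (zeroDiv k (h - algebraMap k K a) hx) →
      ∀ B : Basis (Fin r) k (regularOutside (poles k h) ⧸ I),
      pdet (actMat B (quotAct I)) E = ∏ v ∈ (finite_zeros (k := k) hx).toFinset,
        locDet (poles k h) E v ^ (v.ord (h - algebraMap k K a)).toNat := by
    rintro I rfl B
    rw [(pdet_idealOf hT (zeroDiv k (h - algebraMap k K a) hx) ?_).2 r B E, prod_zeroDiv]
    intro v hv hvT
    have h5 : 0 < (zeroDiv k (h - algebraMap k K a) hx).count v := Multiset.count_pos.mpr hv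
    rw [count_zeroDiv] at h5
    have h6 := val_sub_algebraMap_of_pole h a v hvT
    rw [v.val_eq_exp_neg_ord hx, ← WithZero.exp_zero, WithZero.exp_lt_exp] at h6
    omega
  exact key _ (span_eq_idealOf h a hx) B

end Special

end Pool.Agent.helper68.Zp
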